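import Pool.Agent.Helper175_AZ.MWindow

set_option autoImplicit false
set_option linter.unusedSectionVars false
set_option linter.unusedSimpArgs false

open scoped InnerProductSpace InnerProduct ENNReal

/-! Extensions with amenable left-orderable quotients. -/

namespace Pool.Agent.Helper175_AZ

open Pool.Agent.W649.ZL

universe u v w z

theorem rt_one' {Q : Type u} [Group Q] (C : Finset Q) : rt C 1 = C := by
  ext x
  rw [mem_rt, inv_one, mul_one]

section inv
variable {G : Type u} [Group G] (N : Subgroup G) [N.Normal] {K : Type v} {L : Type w}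
  (T : EE G K →L[ℂ] EE G L)

theorem tr_memN (hT : Eqv T) (C : Finset (G ⧸ N)) (m : G) (hm : m ∈ N) (f : EE G K)
    (hf : f ∈ skerK N T C) : tr m f ∈ skerK N T C := by
  refine ⟨?_, ?_⟩
  · rw [hT, hf.1, tr_zero]
  · intro y hy
    have h1 := hf.2 (y.1 * m, y.2) hy
    rwa [QuotientGroup.mk_mul_of_mem _ hm] at h1

theorem tr_memG (hT : Eqv T) (C : Finset (G ⧸ N)) (g : G) (f : EE G K)
    (hf : f ∈ skerK N T C) : tr g⁻¹ f ∈ skerK N T (rt C (g : G ⧸ N)) := by
  refine ⟨?_, ?_⟩
  · rw [hT, hf.1, tr_zero]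
  · intro y hy
    have h1 := hf.2 (y.1 * g⁻¹, y.2) hy
    rw [mem_rt]
    exact h1

theorem image_tr (hT : Eqv T) (C : Finset (G ⧸ N)) (g : G) :
    tr g⁻¹ '' skerK N T C = skerK N T (rt C (g : G ⧸ N)) := by
  apply Set.Subset.antisymm
  · rintro _ ⟨f, hf, rfl⟩
    exact tr_memG N T hT C g f hf
  · intro f hf
    refine ⟨tr g f, ?_, ?_⟩
    · have h1 := tr_memG N T hT _ g⁻¹ f hf
      rw [inv_inv, rt_rt] at h1
      have h2 : (g : G ⧸ N) * ((g⁻¹ : G) : G ⧸ N) = 1 := by
        rw [← QuotientGroup.mk_mul, mul_inv_cancel, QuotientGroup.mk_one]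
      rw [h2, rt_one'] at h1
      exact h1
    · rw [tr_tr, inv_mul_cancel, tr_one]

theorem infDist_coset (hT : Eqv T) (C : Finset (G ⧸ N)) (x y : G)
    (hxy : (x : G ⧸ N) = (y : G ⧸ N)) (k : K) :
    Metric.infDist (dl ((x, k) : G × K)) (skerK N T C)
      = Metric.infDist (dl ((y, k) : G × K)) (skerK N T C) := by
  have hm : y⁻¹ * x ∈ N := QuotientGroup.eq.1 hxy.symm
  have h1 : tr (y⁻¹ * x) '' skerK N T C = skerK N T C := by
    apply Set.Subset.antisymm
    · rintro _ ⟨f, hf, rfl⟩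
      exact tr_memN N T hT C _ hm f hf
    · intro f hf
      refine ⟨tr (y⁻¹ * x)⁻¹ f, tr_memN N T hT C _ (N.inv_mem hm) f hf, ?_⟩
      rw [tr_tr, mul_inv_cancel, tr_one]
  have h2 := Metric.infDist_image (isometry_trK (y⁻¹ * x)) (x := dl ((x, k) : G × K))
    (t := skerK N T C)
  rw [h1, tr_dl] at h2
  have h3 : x * (y⁻¹ * x)⁻¹ = y := by group
  rw [h3] at h2
  exact h2.symm

theorem rdK_rt [Fintype K] (hT : Eqv T) (C : Finset (G ⧸ N)) (q : G ⧸ N) :
    rdK N T (rt C q) = rdK N T C := by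
  unfold rdK
  have e0 : ∀ F : G ⧸ N → ℝ, ∑ c ∈ rt C q, F c = ∑ c ∈ C, F (c * q) := by
    intro F
    unfold rt
    rw [Finset.sum_map]
    rfl
  rw [e0]
  refine Finset.sum_congr rfl fun c _ => Finset.sum_congr rfl fun k _ => ?_
  have hq : ((q.out : G) : G ⧸ N) = q := QuotientGroup.out_eq' q
  have h1 : (((c * q).out : G) : G ⧸ N) = ((c.out * q.out : G) : G ⧸ N) := by
    rw [QuotientGroup.mk_mul, QuotientGroup.out_eq', QuotientGroup.out_eq', QuotientGroup.out_eq']
  have h2 : skerK N T (rt C q) = tr (q.out)⁻¹ '' skerK N T C := by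
    rw [image_tr N T hT C q.out, hq]
  have h3 : (dl ((c.out * q.out, k) : G × K) : EE G K) = tr (q.out)⁻¹ (dl (c.out, k)) := by
    rw [tr_dl, inv_inv]
  rw [infDist_coset N T hT _ _ _ h1 k, h2, h3, Metric.infDist_image (isometry_trK (q.out)⁻¹)]

end inv

section lin
variable {G : Type u} [Group G] (N : Subgroup G) [N.Normal] {K : Type v} {L : Type w}
  [Fintype K] [Fintype L] {ι : Type z} [Fintype ι]

open Classical in
/-- the cosets of the inverses of the group elements involved -/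
noncomputable def SS (h : ι → G) : Finset (G ⧸ N) :=
  Finset.univ.image (fun i => (((h i)⁻¹ : G) : G ⧸ N))

theorem mem_SS (h : ι → G) (i : ι) (c : G ⧸ N) (C : Finset (G ⧸ N)) (hc : c ∈ C) :
    (((h i)⁻¹ : G) : G ⧸ N) * c ∈ pset (SS N h) C := by
  classical
  apply mem_pset
  · unfold SS
    exact Finset.mem_image.2 ⟨i, Finset.mem_univ _, rfl⟩
  · exact hc

theorem prp_lin [DecidableEq L] (h : ι → G) (k : ι → K) (j : ι → L) (a : ι → ℂ)
    (C : Finset (G ⧸ N)) :
    Prp N (lin (famR h k j) a) C (pset (SS N h) C) := by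
  classical
  rintro f hf ⟨u, l⟩ hy
  rw [lin_famR_apply] at hy
  obtain ⟨i, _, hne⟩ := Finset.exists_ne_zero_of_sum_ne_zero hy
  have h1 := right_ne_zero_of_mul hne
  have h2 : l = j i := by
    by_contra hcon
    rw [if_neg hcon] at h1
    exact h1 rfl
  rw [if_pos h2] at h1
  have h3 := hf _ h1
  have h4 := mem_SS N h i _ C h3
  have h5 : (((h i)⁻¹ : G) : G ⧸ N) * ((h i * u : G) : G ⧸ N) = (u : G ⧸ N) := by
    rw [← QuotientGroup.mk_mul, inv_mul_cancel_left]
  rwa [h5] at h4

theorem hmem (h : ι → G) (i : ι) (c : G ⧸ N) :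
    (c.out)⁻¹ * (h i * ((((h i)⁻¹ : G) : G ⧸ N) * c).out) ∈ N := by
  apply QuotientGroup.eq.1
  rw [QuotientGroup.out_eq', QuotientGroup.mk_mul, QuotientGroup.out_eq', ← mul_assoc,
    ← QuotientGroup.mk_mul, mul_inv_cancel, QuotientGroup.mk_one, one_mul]

open Classical in
theorem TK_lin (h : ι → G) (k : ι → K) (j : ι → L) (a : ι → ℂ) (C : Finset (G ⧸ N)) :
    TK N (lin (famR h k j) a) C (pset (SS N h) C)
      = lin (famR (G := N) (K := C × K) (L := ↥(pset (SS N h) C) × L)
          (fun p : ι × C => ⟨_, hmem N h p.1 p.2⟩) (fun p => (p.2, k p.1))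
          (fun p => (⟨_, mem_SS N h p.1 p.2 C p.2.2⟩, j p.1))) (fun p => a p.1) := by
  ext F ⟨n, d, l⟩
  rw [lin_famR_apply, Fintype.sum_prod_type]
  have h1 : TK N (lin (famR h k j) a) C (pset (SS N h) C) F (n, (d, l))
      = lin (famR h k j) a (eK N K C F) ((d : G ⧸ N).out * (n : G), l) := rfl
  rw [h1, lin_famR_apply]
  refine Finset.sum_congr rfl fun i _ => ?_
  by_cases hl : l = j i
  · rw [if_pos hl]
    by_cases hC : ((h i : G) : G ⧸ N) * (d : G ⧸ N) ∈ C
    · set c0 : C := ⟨_, hC⟩ with hc0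
      have hd : (((h i)⁻¹ : G) : G ⧸ N) * (c0 : G ⧸ N) = (d : G ⧸ N) := by
        rw [hc0]
        change (((h i)⁻¹ : G) : G ⧸ N) * (((h i : G) : G ⧸ N) * (d : G ⧸ N)) = d
        rw [← mul_assoc, ← QuotientGroup.mk_mul, inv_mul_cancel, QuotientGroup.mk_one, one_mul]
      rw [Finset.sum_eq_single c0]
      · have hcond : ((d, l) : ↥(pset (SS N h) C) × L)
            = (⟨_, mem_SS N h i c0 C c0.2⟩, j i) := by
          refine Prod.ext (Subtype.ext ?_) hl
          exact hd.symm
        rw [if_pos hcond]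
        congr 1
        have h2 : ((h i * ((d : G ⧸ N).out * (n : G)), k i) : G × K)
            = cmapK N K C ((⟨_, hmem N h i c0⟩ : N) * n, (c0, k i)) := by
          refine Prod.ext ?_ rfl
          change h i * ((d : G ⧸ N).out * (n : G))
            = (c0 : G ⧸ N).out * (((c0 : G ⧸ N).out)⁻¹
              * (h i * ((((h i)⁻¹ : G) : G ⧸ N) * (c0 : G ⧸ N)).out) * (n : G))
          rw [hd]
          group
        rw [h2]
        exact extL_apply _ _ _ _
      · intro c _ hc
        rw [if_neg, mul_zero]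
        intro hcon
        apply hc
        have h3 : (d : G ⧸ N) = (((h i)⁻¹ : G) : G ⧸ N) * (c : G ⧸ N) :=
          congrArg (fun x : ↥(pset (SS N h) C) × L => (x.1 : G ⧸ N)) hcon
        apply Subtype.ext
        rw [hc0]
        change (c : G ⧸ N) = ((h i : G) : G ⧸ N) * (d : G ⧸ N)
        rw [h3, ← mul_assoc, ← QuotientGroup.mk_mul, mul_inv_cancel, QuotientGroup.mk_one, one_mul]
      · intro hcon
        exact absurd (Finset.mem_univ _) hcon
    · have h2 : eK N K C F (h i * ((d : G ⧸ N).out * (n : G)), k i) = 0 := by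
        by_contra hne
        have h3 := supp_eK N C F _ hne
        apply hC
        have h4 : ((h i * ((d : G ⧸ N).out * (n : G)) : G) : G ⧸ N)
            = ((h i : G) : G ⧸ N) * (d : G ⧸ N) := by
          rw [QuotientGroup.mk_mul, QuotientGroup.mk_mul_of_mem _ n.2, QuotientGroup.out_eq']
        rw [← h4]
        exact h3
      rw [h2, mul_zero]
      symm
      refine Finset.sum_eq_zero fun c _ => ?_
      rw [if_neg, mul_zero]
      intro hcon
      apply hC
      have h3 : (d : G ⧸ N) = (((h i)⁻¹ : G) : G ⧸ N) * (c : G ⧸ N) :=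
        congrArg (fun x : ↥(pset (SS N h) C) × L => (x.1 : G ⧸ N)) hcon
      rw [h3, ← mul_assoc, ← QuotientGroup.mk_mul, mul_inv_cancel, QuotientGroup.mk_one, one_mul]
      exact c.2
  · rw [if_neg hl, mul_zero]
    symm
    refine Finset.sum_eq_zero fun c _ => ?_
    rw [if_neg, mul_zero]
    intro hcon
    exact hl (congrArg Prod.snd hcon)

end lin

end Pool.Agent.Helper175_AZ
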