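import Pool.Agent.Helper175_AZ.Atiyah

set_option autoImplicit false
set_option linter.unusedSectionVars false
set_option linter.unusedSimpArgs false
set_option maxHeartbeats 400000

open scoped InnerProductSpace InnerProduct ENNReal

/-! Extensions with amenable left-orderable quotients. -/

namespace Pool.Agent.Helper175_AZ

open Pool.Agent.W649.ZL

universe u v w z

theorem kerDimM_congr {G : Type u} {K : Type v} {L : Type w} [Group G] [Fintype K] [Fintype L]
    (i1 i2 : DecidableEq K) (A : K → L → (G →₀ ℂ)) :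
    (letI := i1; kerDimM A) = (letI := i2; kerDimM A) := by
  obtain rfl : i1 = i2 := Subsingleton.elim _ _
  rfl

open Classical in
theorem exists_window_matrix {G : Type u} [Group G] (N : Subgroup G) [N.Normal] {K : Type v}
    {L : Type w} [Fintype K] [Fintype L] {ι : Type z} [Fintype ι] (R : Subring ℂ)
    (h : ι → G) (k : ι → K) (j : ι → L) (a : ι → ℂ) (haR : ∀ i, a i ∈ R) (C : Finset (G ⧸ N)) :
    ∃ B : (↥C × K) → (↥(pset (SS N h) C) × L) → (N →₀ ℂ), (∀ x y g, B x y g ∈ R) ∧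
      ∀ _i : DecidableEq (↥C × K), kerDimM B = rdK N (lin (famR h k j) a) C := by
  refine ⟨matM (fun p : ι × C => (⟨_, hmem N h p.1 p.2⟩ : N)) (fun p => (p.2, k p.1))
          (fun p => (⟨_, mem_SS N h p.1 p.2 C p.2.2⟩, j p.1)) (fun p => a p.1), ?_, ?_⟩
  · intro x y g
    unfold matM
    rw [Finsupp.finsetSum_apply]
    refine R.sum_mem fun i _ => ?_
    split_ifs
    · rw [Finsupp.single_apply]
      split_ifs
      · exact haR _
      · exact R.zero_mem
    · exact R.zero_mem
  · have h3 := rdK_eq N (lin (famR h k j) a) C _ (prp_lin N h k j a C)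
    rw [TK_lin N h k j a C] at h3
    have key := kerDimM_eq (fun p : ι × C => (⟨_, hmem N h p.1 p.2⟩ : N)) (fun p => (p.2, k p.1))
      (fun p => ((⟨_, mem_SS N h p.1 p.2 C p.2.2⟩ : ↥(pset (SS N h) C)), j p.1)) (fun p => a p.1)
    intro _i
    exact (kerDimM_congr _ _ _).trans (key.trans h3)

/-- Atiyah conjecture for matrices with coefficients in `R` -/
def AtR (R : Subring ℂ) (G : Type) [Group G] : Prop :=
  ∀ (K L : Type) [Fintype K] [Fintype L] [DecidableEq K] (A : K → L → (G →₀ ℂ)),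
    (∀ k l g, A k l g ∈ R) → ∃ z : ℤ, kerDimM A = z

open Classical in
theorem exists_lin {G : Type} [Group G] {K L : Type} [Fintype K] [Fintype L] [DecidableEq K]
    (R : Subring ℂ) (A : K → L → (G →₀ ℂ)) (hA : ∀ k l g, A k l g ∈ R) :
    ∃ (ι : Type) (_ : Fintype ι) (h : ι → G) (k : ι → K) (j : ι → L) (a : ι → ℂ),
      (∀ i, a i ∈ R) ∧ kerDimM A
        = vd (LinearMap.ker (lin (famR h k j) a : EE G K →ₗ[ℂ] EE G L)) := by
  let T0 : Finset G := Finset.univ.biUnion (fun k => Finset.univ.biUnion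
    (fun l => (A k l).support))
  have hsup : ∀ k l, (A k l).support ⊆ T0 := by
    intro k l x hx
    simp only [T0, Finset.mem_biUnion, Finset.mem_univ, true_and]
    exact ⟨k, l, hx⟩
  have hmat := matM_coefT T0 A hsup
  refine ⟨T0 × K × L, inferInstance, fun i => (i.1 : G), fun i => i.2.1, fun i => i.2.2,
    coefT T0 A, fun i => hA _ _ _, ?_⟩
  have h1 := kerDimM_eq (fun i : T0 × K × L => (i.1 : G)) (fun i => i.2.1) (fun i => i.2.2)
    (coefT T0 A)
  rw [hmat] at h1
  exact h1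

theorem atiyah_ext (R : Subring ℂ) (G : Type) [Group G] (N : Subgroup G) [N.Normal]
    (hO : ∃ O : LinearOrder (G ⧸ N), ∀ a b c : G ⧸ N, O.le a b → O.le (a * c) (b * c))
    (hF : Folner (G ⧸ N)) (hN : AtR R N) : AtR R G := by
  classical
  intro K L _ _ _ A hA
  obtain ⟨ι, _, h, kk, jj, a, haR, hdim⟩ := exists_lin R A hA
  rw [hdim]
  have hTe : Eqv (lin (famR h kk jj) a) := lin_eqv _ (famR_eqv h kk jj) a
  have hprp : ∀ C, Prp N (lin (famR h kk jj) a) C (pset (SS N h) C) :=
    fun C => prp_lin N h kk jj a C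
  have hint : ∀ C, ∃ z : ℤ, rdK N (lin (famR h kk jj) a) C = z := by
    intro C
    obtain ⟨B, hB, hB2⟩ := exists_window_matrix N R h kk jj a haR C
    obtain ⟨z, hz⟩ := hN _ _ B hB
    exact ⟨z, by rw [← hz, hB2 _]⟩
  have h0 : rdK N (lin (famR h kk jj) a) ∅ = 0 := by
    unfold rdK
    rw [Finset.sum_empty]
  have hmono : ∀ (C C' : Finset (G ⧸ N)) (c : G ⧸ N) (h1 : c ∉ C) (h2 : c ∉ C'), C ⊆ C' →
      rdK N (lin (famR h kk jj) a) (Finset.cons c C h1) - rdK N (lin (famR h kk jj) a) C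
        ≤ rdK N (lin (famR h kk jj) a) (Finset.cons c C' h2)
          - rdK N (lin (famR h kk jj) a) C' := by
    intro C C' c hc hc' hCC
    exact increment_mono N _ hTe c C C' hc hc' hCC _ _ (hprp _) (hprp _)
  have hinv : ∀ C g, rdK N (lin (famR h kk jj) a) (rt C g) = rdK N (lin (famR h kk jj) a) C :=
    fun C g => rdK_rt N _ hTe C g
  have hle : ∀ C, rdK N (lin (famR h kk jj) a) C
      ≤ vd (LinearMap.ker (lin (famR h kk jj) a : EE G K →ₗ[ℂ] EE G L)) * C.card :=
    fun C => rdK_le N _ hTe C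
  have hbd : ∀ (C : Finset (G ⧸ N)) (c : G ⧸ N) (h1 : c ∉ C),
      rdK N (lin (famR h kk jj) a) (Finset.cons c C h1) - rdK N (lin (famR h kk jj) a) C
        ≤ Fintype.card K :=
    fun C c hc => increment_le N _ hTe c C hc _ (hprp _)
  have hdn : vd (LinearMap.ker (lin (famR h kk jj) a : EE G K →ₗ[ℂ] EE G L))
      ≤ (Fintype.card K : ℝ) := (vd_mono le_top).trans (le_of_eq vd_top)
  have hlow : ∀ C : Finset (G ⧸ N), (Fintype.card K : ℝ) * C.card
      - ((Fintype.card K : ℝ) - vd (LinearMap.ker (lin (famR h kk jj) a : EE G K →ₗ[ℂ] EE G L)))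
        * (pset (SS N h) C).card ≤ rdK N (lin (famR h kk jj) a) C :=
    fun C => windowK N _ hTe C _ (hprp C)
  obtain ⟨O, hO'⟩ := hO
  exact density O hO' hF (rdK N (lin (famR h kk jj) a)) hint h0 hmono hinv _ _ hle hbd hdn
    (SS N h) hlow

end Pool.Agent.Helper175_AZ
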