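import Mathlib

set_option autoImplicit false
set_option linter.unusedSectionVars false
set_option linter.unusedSimpArgs false

/-! A supermodular, right invariant, integer valued function on the finite subsets of an amenable
group with a right invariant order has an integral density. -/

namespace Pool.Agent.Helper175_AZ

universe u

open Classical in
/-- the product set -/
noncomputable def pset {Q : Type u} [Group Q] (T C : Finset Q) : Finset Q :=
  (T ×ˢ C).image (fun p => p.1 * p.2)

theorem mem_pset {Q : Type u} [Group Q] (T C : Finset Q) (t c : Q) (ht : t ∈ T) (hc : c ∈ C) :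
    t * c ∈ pset T C := by
  classical
  unfold pset
  exact Finset.mem_image.2 ⟨(t, c), Finset.mem_product.2 ⟨ht, hc⟩, rfl⟩

/-- Følner condition -/
def Folner (Q : Type u) [Group Q] : Prop := ∀ (T : Finset Q) (ε : ℝ), 0 < ε →
  ∃ C : Finset Q, C.Nonempty ∧ ((pset T C).card : ℝ) ≤ (1 + ε) * C.card

/-- right translate -/
def rt {Q : Type u} [Group Q] (C : Finset Q) (g : Q) : Finset Q :=
  C.map (mulRightEmbedding g)

section
variable {Q : Type u} [Group Q]

theorem mem_rt (C : Finset Q) (g x : Q) : x ∈ rt C g ↔ x * g⁻¹ ∈ C := by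
  unfold rt
  rw [Finset.mem_map]
  constructor
  · rintro ⟨y, hy, rfl⟩
    change y * g * g⁻¹ ∈ C
    rwa [mul_inv_cancel_right]
  · intro h
    exact ⟨_, h, inv_mul_cancel_right x g⟩

theorem rt_rt (C : Finset Q) (g h : Q) : rt (rt C g) h = rt C (g * h) := by
  ext x
  rw [mem_rt, mem_rt, mem_rt, mul_inv_rev, mul_assoc]

theorem card_rt (C : Finset Q) (g : Q) : (rt C g).card = C.card := Finset.card_map _

theorem density (L : LinearOrder Q) (hL : ∀ a b c : Q, L.le a b → L.le (a * c) (b * c))
    (hF : Folner Q)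
    (D : Finset Q → ℝ) (hint : ∀ C, ∃ z : ℤ, D C = z) (h0 : D ∅ = 0)
    (hmono : ∀ (C C' : Finset Q) (c : Q) (h : c ∉ C) (h' : c ∉ C'), C ⊆ C' →
      D (Finset.cons c C h) - D C ≤ D (Finset.cons c C' h') - D C')
    (hinv : ∀ C g, D (rt C g) = D C) (d n : ℝ) (hle : ∀ C, D C ≤ d * C.card)
    (hbd : ∀ C c (h : c ∉ C), D (Finset.cons c C h) - D C ≤ n) (hdn : d ≤ n) (S : Finset Q)
    (hlow : ∀ C, n * C.card - (n - d) * (pset S C).card ≤ D C) : ∃ z : ℤ, d = z := by
  let _ := L
  have hL' : ∀ a b c : Q, a ≤ b → a * c ≤ b * c := hL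
  have hlt : ∀ a b c : Q, a < b → a * c < b * c := fun a b c hab =>
    lt_of_le_of_ne (hL' a b c hab.le) (fun h => hab.ne (mul_right_cancel h))
  have hnot : ∀ (c : Q) (C : Finset Q), (∀ x ∈ C, x < c) → c ∉ C := fun c C h hc =>
    lt_irrefl _ (h c hc)
  -- integer valued increments
  let P : ℤ → Prop := fun z => ∃ (c : Q) (C : Finset Q) (h : ∀ x ∈ C, x < c),
    D (Finset.cons c C (hnot c C h)) - D C = z
  have hPbd : ∀ z, P z → z ≤ ⌊n⌋ := by
    rintro z ⟨c, C, h1, h2⟩
    rw [Int.le_floor, ← h2]
    exact hbd C c (hnot c C h1)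
  have hPne : ∃ z, P z := by
    obtain ⟨z, hz⟩ := hint (Finset.cons (1 : Q) ∅ (by simp))
    exact ⟨z, 1, ∅, by simp, by rw [h0, sub_zero, hz]⟩
  obtain ⟨J, ⟨c0, C0, hC0, hJ⟩, hmax⟩ := Int.exists_greatest_of_bdd ⟨_, hPbd⟩ hPne
  have hmax' : ∀ (c : Q) (C : Finset Q) (h : ∀ x ∈ C, x < c) (h' : c ∉ C),
      D (Finset.cons c C h') - D C ≤ J := by
    intro c C h h'
    obtain ⟨z1, hz1⟩ := hint (Finset.cons c C h')
    obtain ⟨z2, hz2⟩ := hint C
    have : P (z1 - z2) := ⟨c, C, h, by rw [hz1, hz2]; push_cast; ring⟩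
    have h3 := hmax _ this
    rw [hz1, hz2]
    exact_mod_cast h3
  set S0 : Finset Q := rt C0 c0⁻¹ with hS0
  have hS0lt : ∀ x ∈ S0, x < 1 := by
    intro x hx
    rw [hS0, mem_rt, inv_inv] at hx
    have := hlt _ _ c0⁻¹ (hC0 _ hx)
    rwa [mul_inv_cancel_right, mul_inv_cancel] at this
  have hS0c : ∀ c x : Q, x ∈ rt S0 c → x < c := by
    intro c x hx
    rw [mem_rt] at hx
    have h3 := hlt _ _ c (hS0lt _ hx)
    rwa [inv_mul_cancel_right, one_mul] at h3
  have hJ' : ∀ (c : Q) (h : c ∉ rt S0 c), D (Finset.cons c (rt S0 c) h) - D (rt S0 c) = J := by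
    intro c h
    have e1 : rt S0 c = rt C0 (c0⁻¹ * c) := by rw [hS0, rt_rt]
    have e2 : Finset.cons c (rt S0 c) h
        = rt (Finset.cons c0 C0 (hnot c0 C0 hC0)) (c0⁻¹ * c) := by
      ext x
      have h1 : x * (c0⁻¹ * c)⁻¹ = c0 ↔ x = c := by
        rw [mul_inv_eq_iff_eq_mul, mul_inv_cancel_left]
      have h2 : x ∈ rt S0 c ↔ x * (c0⁻¹ * c)⁻¹ ∈ C0 := by
        rw [e1, mem_rt]
      have h3 : x ∈ rt (Finset.cons c0 C0 (hnot c0 C0 hC0)) (c0⁻¹ * c)
          ↔ x * (c0⁻¹ * c)⁻¹ = c0 ∨ x * (c0⁻¹ * c)⁻¹ ∈ C0 := by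
        rw [mem_rt, Finset.mem_cons]
      rw [Finset.mem_cons, h3, h1, h2]
    rw [e2, hinv, e1, hinv]
    exact hJ
  set j0 : ℝ := D {1} with hj0
  have hj0le : ∀ (c : Q) (C : Finset Q) (h : c ∉ C), j0 ≤ D (Finset.cons c C h) - D C := by
    intro c C hc
    have e1 := hmono ∅ C c (by simp) hc (Finset.empty_subset _)
    rw [h0, sub_zero] at e1
    have e2 : Finset.cons c (∅ : Finset Q) (by simp) = rt {1} c := by
      ext x
      rw [Finset.mem_cons, mem_rt, Finset.mem_singleton, mul_inv_eq_one]
      simp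
    rw [e2, hinv] at e1
    exact e1
  have hj0J : j0 ≤ J := by
    rw [← hJ]
    exact hj0le _ _ _
  -- upper bound
  have hup : ∀ C : Finset Q, D C ≤ J * C.card := by
    intro C
    induction C using Finset.induction_on_max with
    | empty => rw [h0]; simp
    | insert a s ha ih =>
      have h1 := hmax' a s ha (hnot a s ha)
      rw [← Finset.cons_eq_insert _ _ (hnot a s ha), Finset.card_cons]
      push_cast
      linarith
  -- lower bound
  have hlo : ∀ C : Finset Q, ∑ c ∈ C, (if rt S0 c ⊆ C then (J : ℝ) else j0) ≤ D C := by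
    intro C
    induction C using Finset.induction_on_max with
    | empty => rw [h0]; simp
    | insert a s ha ih =>
      rw [← Finset.cons_eq_insert _ _ (hnot a s ha), Finset.sum_cons]
      have hself : ∀ c ∈ insert a s,
          (rt S0 c ⊆ Finset.cons a s (hnot a s ha) ↔ rt S0 c ⊆ s) := by
        intro c hc
        constructor
        · intro h x hx
          have hx1 := h hx
          rw [Finset.mem_cons] at hx1
          rcases hx1 with rfl | hx1
          · exfalso
            have h3 := hS0c c x hx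
            rcases Finset.mem_insert.1 hc with rfl | hc
            · exact lt_irrefl _ h3
            · exact lt_asymm h3 (ha c hc)
          · exact hx1
        · intro h
          exact h.trans (Finset.subset_cons _)
      have h1 : ∑ c ∈ s, (if rt S0 c ⊆ Finset.cons a s (hnot a s ha) then (J : ℝ) else j0)
          = ∑ c ∈ s, (if rt S0 c ⊆ s then (J : ℝ) else j0) :=
        Finset.sum_congr rfl fun c hc => by
          simp only [hself c (Finset.mem_insert_of_mem hc)]
      have h2 : (if rt S0 a ⊆ Finset.cons a s (hnot a s ha) then (J : ℝ) else j0)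
          ≤ D (Finset.cons a s (hnot a s ha)) - D s := by
        simp only [hself a (Finset.mem_insert_self _ _)]
        split_ifs with hg
        · rw [← hJ' a (fun h => lt_irrefl _ (hS0c a a h))]
          exact hmono _ _ a _ (hnot a s ha) hg
        · exact hj0le a s (hnot a s ha)
      rw [h1]
      linarith
  -- Følner sets
  refine ⟨J, le_antisymm ?_ ?_⟩
  · -- `d ≤ J`
    by_contra hcon
    push Not at hcon
    have hnd : 0 ≤ n - d := by linarith
    have hε : 0 < (d - J) / (2 * (n - d + 1)) := by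
      apply div_pos (by linarith) (by linarith)
    obtain ⟨C, hC, hC1⟩ := hF S _ hε
    have hCpos : (0 : ℝ) < C.card := by exact_mod_cast hC.card_pos
    set ε := (d - J) / (2 * (n - d + 1)) with hεdef
    have h1 := hlow C
    have h2 := hup C
    have h3 : (n - d) * ((pset S C).card : ℝ) ≤ (n - d) * ((1 + ε) * C.card) :=
      mul_le_mul_of_nonneg_left hC1 hnd
    have h4 : (n : ℝ) * C.card - (n - d) * ((1 + ε) * C.card) ≤ J * C.card := by linarith
    have h5 : (d - (n - d) * ε) * C.card ≤ J * C.card := by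
      calc (d - (n - d) * ε) * C.card = n * C.card - (n - d) * ((1 + ε) * C.card) := by ring
        _ ≤ _ := h4
    have h6 : d - (n - d) * ε ≤ J := le_of_mul_le_mul_right h5 hCpos
    have h7 : (n - d) * ε ≤ (d - J) / 2 := by
      rw [hεdef, ← mul_div_assoc, div_le_div_iff₀ (by linarith) (by norm_num)]
      nlinarith
    linarith
  · -- `J ≤ d`
    by_contra hcon
    push Not at hcon
    set κ : ℝ := (J - j0) * S0.card with hκ
    have hκ0 : 0 ≤ κ := mul_nonneg (by linarith) (Nat.cast_nonneg _)
    have hε : 0 < (J - d) / (2 * (κ + 1)) := by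
      apply div_pos (by linarith) (by linarith)
    obtain ⟨C, hC, hC1⟩ := hF (insert 1 S0) _ hε
    have hCpos : (0 : ℝ) < C.card := by exact_mod_cast hC.card_pos
    set ε := (J - d) / (2 * (κ + 1)) with hεdef
    have h1 := hlo C
    have h2 := hle C
    -- the bad elements
    set bad := C.filter (fun c => ¬ rt S0 c ⊆ C) with hbad
    have hsub : C ⊆ pset (insert 1 S0) C := by
      intro x hx
      have := mem_pset (insert 1 S0) C 1 x (Finset.mem_insert_self _ _) hx
      rwa [one_mul] at this
    have hout : ∀ s ∈ S0, ((C.filter (fun c => s * c ∉ C)).card : ℝ) ≤ ε * C.card := by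
      intro s hs
      have e1 : (C.filter (fun c => s * c ∉ C)).card ≤ (pset (insert 1 S0) C \ C).card := by
        refine Finset.card_le_card_of_injOn (fun c => s * c) ?_
          (fun a _ b _ hab => mul_left_cancel hab)
        intro c hc
        have hc' := Finset.mem_filter.1 hc
        rw [Finset.coe_sdiff]
        exact ⟨mem_pset _ _ s c (Finset.mem_insert_of_mem hs) hc'.1, hc'.2⟩
      have e2 : ((pset (insert 1 S0) C \ C).card : ℝ) = (pset (insert 1 S0) C).card - C.card := by
        rw [Finset.card_sdiff_of_subset hsub, Nat.cast_sub (Finset.card_le_card hsub)]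
      have e3 : ((C.filter (fun c => s * c ∉ C)).card : ℝ) ≤ (pset (insert 1 S0) C \ C).card := by
        exact_mod_cast e1
      linarith
    have hbadcard : (bad.card : ℝ) ≤ S0.card * (ε * C.card) := by
      have e1 : bad ⊆ S0.biUnion (fun s => C.filter (fun c => s * c ∉ C)) := by
        intro c hc
        have hc' := Finset.mem_filter.1 hc
        obtain ⟨x, hx1, hx2⟩ := Finset.not_subset.1 hc'.2
        rw [mem_rt] at hx1
        rw [Finset.mem_biUnion]
        refine ⟨_, hx1, Finset.mem_filter.2 ⟨hc'.1, ?_⟩⟩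
        rwa [inv_mul_cancel_right]
      have e2 : (bad.card : ℝ) ≤ ∑ s ∈ S0, ((C.filter (fun c => s * c ∉ C)).card : ℝ) := by
        exact_mod_cast (Finset.card_le_card e1).trans Finset.card_biUnion_le
      refine e2.trans ((Finset.sum_le_sum hout).trans (le_of_eq ?_))
      rw [Finset.sum_const, nsmul_eq_mul]
    have hsum : ∑ c ∈ C, (if rt S0 c ⊆ C then (J : ℝ) else j0)
        = J * C.card - (J - j0) * bad.card := by
      have e1 : ∀ c ∈ C, (if rt S0 c ⊆ C then (J : ℝ) else j0)
          = J - (if ¬ rt S0 c ⊆ C then (J - j0) else 0) := by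
        intro c _
        by_cases hg : rt S0 c ⊆ C
        · rw [if_pos hg, if_neg (not_not.2 hg), sub_zero]
        · rw [if_neg hg, if_pos hg]; ring
      rw [Finset.sum_congr rfl e1, Finset.sum_sub_distrib, Finset.sum_const, nsmul_eq_mul,
        ← Finset.sum_filter, Finset.sum_const, nsmul_eq_mul]
      ring
    rw [hsum] at h1
    have h3 : (J - j0) * (bad.card : ℝ) ≤ κ * (ε * C.card) := by
      calc (J - j0) * (bad.card : ℝ) ≤ (J - j0) * (S0.card * (ε * C.card)) :=
            mul_le_mul_of_nonneg_left hbadcard (by linarith)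
        _ = κ * (ε * C.card) := by rw [hκ]; ring
    have h4 : (J - κ * ε) * C.card ≤ d * C.card := by
      have : (J - κ * ε) * (C.card : ℝ) = J * C.card - κ * (ε * C.card) := by ring
      rw [this]; linarith
    have h5 : J - κ * ε ≤ d := le_of_mul_le_mul_right h4 hCpos
    have h6 : κ * ε ≤ (J - d) / 2 := by
      rw [hεdef, ← mul_div_assoc, div_le_div_iff₀ (by linarith) (by norm_num)]
      nlinarith
    linarith

end

end Pool.Agent.Helper175_AZ
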