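import Pool.Agent.Helper175_AZ.Window

set_option autoImplicit false
set_option linter.unusedSectionVars false
set_option linter.unusedSimpArgs false

open scoped InnerProductSpace InnerProduct ENNReal

/-! Consequences of the window inequality. -/

namespace Pool.Agent.Helper175_AZ

open Pool.Agent.W649.ZL

universe u v w

/-- `α * f` is nonzero for every nonzero square-summable `f` -/
def Reg {G : Type u} [Group G] (α : G →₀ ℂ) : Prop :=
  ∀ f : G → ℂ, Memℓp f 2 → f ≠ 0 → ∃ g : G, ∑ k ∈ α.support, α k * f (k⁻¹ * g) ≠ 0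

section
variable {G : Type u} [Group G] (H : Subgroup G) (α : G →₀ ℂ)

theorem coset_vanish (hH : ∀ β : H →₀ ℂ, β ≠ 0 → Reg β) (f : G → ℂ) (hf : Memℓp f 2) (x y : G)
    (h1 : ∀ s ∈ α.support, ∀ h : H, f (s⁻¹ * (y * (h : G))) ≠ 0 →
      ((s⁻¹ * (y * (h : G)) : G) : G ⧸ H) = (x : G ⧸ H))
    (h2 : ∀ h : H, ∑ s ∈ α.support, α s * f (s⁻¹ * (y * (h : G))) = 0)
    (h3 : ∃ s ∈ α.support, s • (x : G ⧸ H) = (y : G ⧸ H)) :
    ∀ g : G, (g : G ⧸ H) = (x : G ⧸ H) → f g = 0 := by
  classical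
  let φ : H → G := fun k => y * (k : G) * x⁻¹
  have hφ : Function.Injective φ := by
    intro a b hab
    exact Subtype.ext (mul_left_cancel (mul_right_cancel hab))
  let β : H →₀ ℂ := α.comapDomain φ hφ.injOn
  have hβ : ∀ k, β k = α (φ k) := fun k => Finsupp.comapDomain_apply _ _ _ _
  have hβ0 : β ≠ 0 := by
    obtain ⟨s, hs, hsx⟩ := h3
    have hsx' : ((s * x : G) : G ⧸ H) = (y : G ⧸ H) := hsx
    have hk : y⁻¹ * (s * x) ∈ H := QuotientGroup.eq.1 hsx'.symm
    intro h0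
    have e1 : φ ⟨_, hk⟩ = s := by
      change y * (y⁻¹ * (s * x)) * x⁻¹ = s
      rw [mul_inv_cancel_left, mul_inv_cancel_right]
    have e2 := hβ ⟨_, hk⟩
    rw [h0, e1] at e2
    exact (Finsupp.mem_support_iff.1 hs) e2.symm
  intro g hg
  by_contra hne
  let F : H → ℂ := fun h => f (x * (h : G))
  have hF : Memℓp F 2 := by
    rw [memlp_two_iff]
    have a1 := (memlp_two_iff _).1 hf
    exact a1.comp_injective (i := fun h : H => x * (h : G)) (by
      intro a b hab
      exact Subtype.ext (mul_left_cancel hab))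
  have hF0 : F ≠ 0 := by
    intro h0
    have hk : x⁻¹ * g ∈ H := QuotientGroup.eq.1 hg.symm
    have e1 := congrFun h0 ⟨_, hk⟩
    change f (x * (x⁻¹ * g)) = 0 at e1
    rw [mul_inv_cancel_left] at e1
    exact hne e1
  obtain ⟨h, hh⟩ := hH β hβ0 F hF hF0
  apply hh
  rw [← h2 h]
  have e3 : β.support = α.support.preimage φ hφ.injOn := rfl
  rw [e3, ← Finset.sum_preimage φ α.support hφ.injOn
    (fun s => α s * f (s⁻¹ * (y * (h : G)))) ?_]
  · refine Finset.sum_congr rfl fun k _ => ?_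
    rw [hβ]
    change α (φ k) * f (x * ((k : G)⁻¹ * (h : G)))
      = α (φ k) * f ((y * (k : G) * x⁻¹)⁻¹ * (y * (h : G)))
    have e4 : (y * (k : G) * x⁻¹)⁻¹ * (y * (h : G)) = x * ((k : G)⁻¹ * (h : G)) := by group
    rw [e4]
  · intro s hs hsr
    by_contra hcon
    apply hsr
    have a1 := h1 s hs h (right_ne_zero_of_mul hcon)
    have a2 : x⁻¹ * (s⁻¹ * (y * (h : G))) ∈ H := QuotientGroup.eq.1 a1.symm
    have a3 : x⁻¹ * (s⁻¹ * (y * (h : G))) * (h : G)⁻¹ ∈ H := H.mul_mem a2 (H.inv_mem h.2)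
    have a4 : y⁻¹ * s * x ∈ H := by
      have a5 := H.inv_mem a3
      have e5 : (x⁻¹ * (s⁻¹ * (y * (h : G))) * (h : G)⁻¹)⁻¹ = y⁻¹ * s * x := by group
      rwa [e5] at a5
    refine ⟨⟨_, a4⟩, ?_⟩
    change y * (y⁻¹ * s * x) * x⁻¹ = s
    group

theorem sker_apply (C : Finset (G ⧸ H)) (f : EE G Unit) (hf : f ∈ sker H α C) (g : G) :
    ∑ k ∈ α.support, α k * f (k⁻¹ * g, ()) = 0 := by
  rw [← cop_apply, hf.1]
  rfl

theorem memlp_fst (f : EE G Unit) : Memℓp (fun g : G => f (g, ())) 2 := by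
  rw [memlp_two_iff]
  have h := (memlp_two_iff _).1 f.2
  exact (Equiv.summable_iff (Equiv.prodPUnit G).symm).2 h

/-- one coset: the bound `1 - 1/m` -/
theorem one_coset (hH : ∀ β : H →₀ ℂ, β ≠ 0 → Reg β) (hα : α ≠ 0) (D : Finset (G ⧸ H))
    (hD : ∀ k ∈ α.support, (k : G ⧸ H) ∈ D) : kd α ≤ 1 - 1 / (D.card : ℝ) := by
  classical
  obtain ⟨s0, hs0⟩ := Finsupp.support_nonempty_iff.2 hα
  have hz : ∀ f ∈ sker H α {((1 : G) : G ⧸ H)}, f = 0 := by
    intro f hf
    have h1 := coset_vanish H α hH (fun g => f (g, ())) (memlp_fst f) 1 s0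
      (fun s _ h hne => by
        have := hf.2 _ hne
        rwa [Finset.mem_singleton] at this)
      (fun h => sker_apply H α _ f hf _)
      ⟨s0, hs0, by change ((s0 * 1 : G) : G ⧸ H) = _; rw [mul_one]⟩
    ext ⟨g, ⟨⟩⟩
    by_contra hne
    have h2 := hf.2 (g, ()) hne
    rw [Finset.mem_singleton] at h2
    exact hne (h1 g h2)
  have h1 := window H α {((1 : G) : G ⧸ H)} D (by
    intro k hk c hc
    rw [Finset.mem_singleton] at hc
    subst hc
    change ((k * 1 : G) : G ⧸ H) ∈ D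
    rw [mul_one]
    exact hD k hk)
  rw [rd_eq_zero H α _ hz, Finset.card_singleton] at h1
  have hpos : (0 : ℝ) < D.card := by
    have : D.Nonempty := ⟨_, hD s0 hs0⟩
    exact_mod_cast this.card_pos
  have h2 : (1 : ℝ) ≤ (1 - kd α) * D.card := by
    push_cast at h1
    linarith
  have h3 : 1 / (D.card : ℝ) ≤ 1 - kd α := by
    rw [div_le_iff₀ hpos]
    exact h2
  linarith

/-- the statement for infinite cyclic groups -/
theorem zpowers_reg (z : G) (hz : ¬ IsOfFinOrder z) :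
    ∀ β : Subgroup.zpowers z →₀ ℂ, β ≠ 0 → Reg β := by
  intro β hβ
  refine (regular_iff β).2 ?_
  refine cop_zpowers_injective (⟨z, Subgroup.mem_zpowers z⟩ : Subgroup.zpowers z) ?_ β hβ ?_
  · intro h
    exact hz (MonoidHom.isOfFinOrder (Subgroup.zpowers z).subtype h)
  · intro x _
    obtain ⟨n, hn⟩ := Subgroup.mem_zpowers_iff.1 x.2
    rw [Subgroup.mem_zpowers_iff]
    exact ⟨n, Subtype.ext (by rw [← hn]; rfl)⟩

theorem kd_two (x y : G) (hx : x ∈ α.support) (hy : y ∈ α.support)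
    (hxy : ¬ IsOfFinOrder (x⁻¹ * y)) : kd α ≤ 1 - 1 / ((α.support.card : ℝ) - 1) := by
  classical
  have hne : x ≠ y := by
    rintro rfl
    apply hxy
    rw [inv_mul_cancel]
    exact IsOfFinOrder.one
  have hα : α ≠ 0 := Finsupp.support_nonempty_iff.1 ⟨x, hx⟩
  set H := Subgroup.zpowers (x⁻¹ * y) with hH
  set D : Finset (G ⧸ H) := (α.support.erase y).image (fun g : G => (g : G ⧸ H)) with hD
  have hmem : ∀ k ∈ α.support, (k : G ⧸ H) ∈ D := by
    intro k hk
    rw [hD, Finset.mem_image]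
    by_cases hky : k = y
    · subst hky
      refine ⟨x, Finset.mem_erase.2 ⟨hne, hx⟩, ?_⟩
      exact QuotientGroup.eq.2 (Subgroup.mem_zpowers _)
    · exact ⟨k, Finset.mem_erase.2 ⟨hky, hk⟩, rfl⟩
  have h1 := one_coset H α (zpowers_reg _ hxy) hα D hmem
  have h2 : D.card ≤ α.support.card - 1 := by
    rw [← Finset.card_erase_of_mem hy]
    exact Finset.card_image_le
  have h3 : 0 < D.card := Finset.card_pos.2 ⟨_, hmem x hx⟩
  have h4 : (D.card : ℝ) ≤ (α.support.card : ℝ) - 1 := by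
    have h5 : 1 ≤ α.support.card := Finset.card_pos.2 ⟨x, hx⟩
    have h6 : ((α.support.card - 1 : ℕ) : ℝ) = (α.support.card : ℝ) - 1 := by
      rw [Nat.cast_sub h5, Nat.cast_one]
    rw [← h6]
    exact_mod_cast h2
  have h7 : 1 / ((α.support.card : ℝ) - 1) ≤ 1 / (D.card : ℝ) :=
    one_div_le_one_div_of_le (by exact_mod_cast h3) h4
  linarith

open Classical in
/-- all translates of cosets in `C` by elements of `T` -/
noncomputable def tsl (T : Finset G) (C : Finset (G ⧸ H)) : Finset (G ⧸ H) :=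
  (T ×ˢ C).image (fun p => p.1 • p.2)

theorem mem_tsl (T : Finset G) (C : Finset (G ⧸ H)) (k : G) (hk : k ∈ T) (c : G ⧸ H)
    (hc : c ∈ C) : k • c ∈ tsl H T C := by
  classical
  unfold tsl
  exact Finset.mem_image.2 ⟨(k, c), Finset.mem_product.2 ⟨hk, hc⟩, rfl⟩

/-- co-amenability -/
def CoAm : Prop := ∀ (T : Finset G) (ε : ℝ), 0 < ε →
  ∃ C : Finset (G ⧸ H), C.Nonempty ∧ ((tsl H T C).card : ℝ) ≤ (1 + ε) * C.card

theorem kd_pos' (h : ¬ Function.Injective (cop α)) : 0 < kd α := by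
  rw [injective_iff_map_eq_zero] at h
  push Not at h
  obtain ⟨f, hf, hf0⟩ := h
  have h1 := kd_nonneg α
  rcases h1.lt_or_eq with h2 | h2
  · exact h2
  exfalso
  -- the kernel has dimension zero, so `δ₁` is orthogonal to it
  rw [kd_eq] at h2
  set K := LinearMap.ker (cop α : EE G Unit →ₗ[ℂ] EE G Unit) with hK
  have hcl : IsClosed (K : Set (EE G Unit)) := ContinuousLinearMap.isClosed_ker (cop α)
  have : CompleteSpace K := hcl.completeSpace_coe
  have h3 : ∀ g : G, K.starProjection (dl ((g, ()) : G × Unit)) = 0 := by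
    intro g
    have e1 : Metric.infDist (dl ((g, ()) : G × Unit)) (K : Set (EE G Unit)) ^ 2 = 1 := by
      rw [infDist_dl K (inv_ker (cop α) (cop_eqv α)) g]
      linarith
    have e2 : Metric.infDist (dl ((g, ()) : G × Unit)) (K : Set (EE G Unit))
        = ‖dl ((g, ()) : G × Unit) - K.starProjection (dl ((g, ()) : G × Unit))‖ := by
      rw [Submodule.starProjection_minimal, Metric.infDist_eq_iInf]
      simp only [dist_eq_norm]
      rfl
    have e3 : ‖(dl ((g, ()) : G × Unit) : EE G Unit)‖ ^ 2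
        = ‖K.starProjection (dl ((g, ()) : G × Unit))‖ ^ 2
          + ‖Kᗮ.starProjection (dl ((g, ()) : G × Unit))‖ ^ 2 :=
      Submodule.norm_sq_eq_add_norm_sq_starProjection _ K
    have e4 : Kᗮ.starProjection (dl ((g, ()) : G × Unit))
        = dl ((g, ()) : G × Unit) - K.starProjection (dl ((g, ()) : G × Unit)) := by
      rw [← Submodule.starProjection_orthogonal_val]
    rw [e4, norm_dl, ← e2, e1] at e3
    have e5 : ‖K.starProjection (dl ((g, ()) : G × Unit))‖ ^ 2 = 0 := by linarith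
    exact norm_eq_zero.1 (pow_eq_zero_iff (by norm_num) |>.1 e5)
  apply hf0
  ext ⟨g, ⟨⟩⟩
  have e6 : ⟪(dl ((g, ()) : G × Unit) : EE G Unit), f⟫_ℂ = 0 := by
    have e7 : ⟪(dl ((g, ()) : G × Unit) : EE G Unit) - K.starProjection (dl ((g, ()) : G × Unit)), f⟫_ℂ = 0 :=
      Submodule.starProjection_inner_eq_zero _ f hf
    rw [h3 g, sub_zero] at e7
    exact e7
  rw [inner_dl_left] at e6
  exact e6

/-- co-amenable subgroups: kernel functions supported on finitely many cosets -/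
theorem coam (hH : CoAm H) (h : ¬ Function.Injective (cop α)) :
    ∃ (C : Finset (G ⧸ H)), ∃ f ∈ sker H α C, f ≠ 0 := by
  by_contra hcon
  push Not at hcon
  have h1 := kd_pos' α h
  have h2 := kd_le_one α
  obtain ⟨C, hC, hle⟩ := hH α.support (kd α) h1
  have h3 := window H α C (tsl H α.support C)
    (fun k hk c hc => mem_tsl H α.support C k hk c hc)
  rw [rd_eq_zero H α C (fun f hf => hcon C f hf)] at h3
  have hCpos : (0 : ℝ) < C.card := by exact_mod_cast hC.card_pos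
  have h4 : (1 - kd α) * ((tsl H α.support C).card : ℝ)
      ≤ (1 - kd α) * ((1 + kd α) * C.card) :=
    mul_le_mul_of_nonneg_left hle (by linarith)
  have h5 : (1 - kd α) * ((1 + kd α) * (C.card : ℝ)) = C.card - kd α ^ 2 * C.card := by ring
  have h6 : 0 < kd α ^ 2 * (C.card : ℝ) := by positivity
  linarith

/-- the unique product property of the action on the cosets -/
def UPA : Prop := ∀ (T : Finset G) (C : Finset (G ⧸ H)), T.Nonempty → C.Nonempty →
  ∃ t ∈ T, ∃ c ∈ C, ∀ t' ∈ T, ∀ c' ∈ C, t' • c' = t • c → c' = c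

theorem extension (hH : ∀ β : H →₀ ℂ, β ≠ 0 → Reg β) (hC : CoAm H) (hU : UPA H) (hα : α ≠ 0) :
    Function.Injective (cop α) := by
  classical
  by_contra hinj
  obtain ⟨C0, f, hf, hf0⟩ := coam H α hC hinj
  -- the cosets on which `f` does not vanish
  set C : Finset (G ⧸ H) := C0.filter (fun c => ∃ g : G, (g : G ⧸ H) = c ∧ f (g, ()) ≠ 0) with hCdef
  have hsupp : ∀ g : G, f (g, ()) ≠ 0 → (g : G ⧸ H) ∈ C := by
    intro g hg
    rw [hCdef, Finset.mem_filter]
    exact ⟨hf.2 (g, ()) hg, g, rfl, hg⟩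
  have hCne : C.Nonempty := by
    by_contra hcon
    apply hf0
    ext ⟨g, ⟨⟩⟩
    by_contra hg
    exact hcon ⟨_, hsupp g hg⟩
  obtain ⟨t, ht, c, hc, huniq⟩ := hU α.support C (Finsupp.support_nonempty_iff.2 hα) hCne
  have hc' := (Finset.mem_filter.1 hc).2
  obtain ⟨x, hxc, hfx⟩ := hc'
  apply hfx
  refine coset_vanish H α hH (fun g => f (g, ())) (memlp_fst f) x (t * x) ?_ ?_ ?_ x rfl
  · intro s hs h hne
    have a1 := hsupp _ hne
    rw [hxc]
    apply huniq s hs _ a1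
    rw [← hxc]
    change ((s * (s⁻¹ * (t * x * (h : G))) : G) : G ⧸ H) = ((t * x : G) : G ⧸ H)
    rw [mul_inv_cancel_left]
    exact QuotientGroup.mk_mul_of_mem _ h.2
  · intro h
    exact sker_apply H α _ f hf _
  · exact ⟨t, ht, rfl⟩

theorem upa_of_order (L : LinearOrder (G ⧸ H))
    (hL : ∀ (g : G) (c d : G ⧸ H), L.le c d → L.le (g • c) (g • d)) : UPA H := by
  classical
  intro T C hT hC
  let _ := L
  have hL' : ∀ (g : G) (c d : G ⧸ H), c ≤ d → g • c ≤ g • d := hL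
  obtain ⟨c, hc, hmax⟩ := C.exists_max_image id hC
  obtain ⟨t, ht, htmax⟩ := T.exists_max_image (fun t => t • c) hT
  refine ⟨t, ht, c, hc, fun t' ht' c' hc' he => ?_⟩
  have h1 : t' • c' ≤ t' • c := hL' t' c' c (hmax c' hc')
  have h2 : t' • c ≤ t • c := htmax t' ht'
  have h3 : t' • c' = t' • c := le_antisymm h1 (by rw [he]; exact h2)
  exact smul_left_cancel t' h3

end

end Pool.Agent.Helper175_AZ
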