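import Pool.Agent.Helper175_AZ.Coset

set_option autoImplicit false
set_option linter.unusedSectionVars false
set_option linter.unusedSimpArgs false

open scoped InnerProductSpace InnerProduct ENNReal

/-! Uniform bounds for the dimension of the kernel over torsion-free groups. -/

namespace Pool.Agent.Helper175_AZ

open Pool.Agent.W649.ZL

universe u v w

section
variable {G : Type u} [Group G] (α : G →₀ ℂ)

open Classical in
/-- the elements `x` of the support such that `x z⁻¹` is in the support -/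
noncomputable def RR (z : G) : Finset G := α.support.filter (fun x => x * z⁻¹ ∈ α.support)

/-- `1 ≤ r (n - e(z))` -/
theorem chain_bound (hα : α ≠ 0) (z : G) (hz : ¬ IsOfFinOrder z) :
    1 ≤ (1 - kd α) * ((α.support.card : ℝ) - (RR α z).card) := by
  classical
  set H := Subgroup.zpowers z with hH
  set T' : Finset G := α.support \ RR α z with hT'
  set D : Finset (G ⧸ H) := T'.image (fun g : G => (g : G ⧸ H)) with hD
  have hinj : Function.Injective (fun n : ℤ => z ^ n) := injective_zpow_iff_not_isOfFinOrder.2 hz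
  have hmem : ∀ k ∈ α.support, (k : G ⧸ H) ∈ D := by
    intro t ht
    have hex : ∃ j : ℕ, t * (z ^ (j + 1))⁻¹ ∉ α.support := by
      by_contra hcon
      push Not at hcon
      have h1 : Function.Injective (fun j : ℕ => t * (z ^ (j + 1))⁻¹) := by
        intro a b hab
        have h2 : z ^ (a + 1) = z ^ (b + 1) := inv_injective (mul_left_cancel hab)
        have h3 : z ^ ((a : ℤ) + 1) = z ^ ((b : ℤ) + 1) := by exact_mod_cast h2
        have h4 := hinj h3
        omega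
      exact Set.infinite_of_injective_forall_mem h1 (s := (α.support : Set G))
        (fun j => hcon j) α.support.finite_toSet
    set j := Nat.find hex with hj
    have hj1 : t * (z ^ (j + 1))⁻¹ ∉ α.support := Nat.find_spec hex
    have hj2 : t * (z ^ j)⁻¹ ∈ α.support := by
      rcases Nat.eq_zero_or_pos j with h0 | h0
      · rw [h0, pow_zero, inv_one, mul_one]; exact ht
      · have h5 := Nat.find_min hex (m := j - 1) (by omega)
        rw [not_not] at h5
        have h6 : j - 1 + 1 = j := by omega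
        rwa [h6] at h5
    rw [hD, Finset.mem_image]
    refine ⟨t * (z ^ j)⁻¹, ?_, ?_⟩
    · rw [hT', Finset.mem_sdiff]
      refine ⟨hj2, ?_⟩
      unfold RR
      rw [Finset.mem_filter]
      rintro ⟨_, h7⟩
      apply hj1
      have h8 : t * (z ^ j)⁻¹ * z⁻¹ = t * (z ^ (j + 1))⁻¹ := by
        rw [pow_succ', mul_inv_rev, mul_assoc]
      rwa [h8] at h7
    · apply QuotientGroup.eq.2
      rw [mul_inv_rev, inv_inv, mul_assoc, inv_mul_cancel, mul_one]
      exact Subgroup.pow_mem _ (Subgroup.mem_zpowers z) j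
  have h1 := one_coset H α (zpowers_reg _ hz) hα D hmem
  have hsub : RR α z ⊆ α.support := by unfold RR; exact Finset.filter_subset _ _
  have h2 : D.card ≤ α.support.card - (RR α z).card := by
    rw [← Finset.card_sdiff_of_subset hsub]
    exact Finset.card_image_le
  obtain ⟨s0, hs0⟩ := Finsupp.support_nonempty_iff.2 hα
  have h3 : 0 < D.card := Finset.card_pos.2 ⟨_, hmem s0 hs0⟩
  have h4 : (D.card : ℝ) ≤ (α.support.card : ℝ) - (RR α z).card := by
    have h5 := Finset.card_le_card hsub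
    rw [← Nat.cast_sub h5]
    exact_mod_cast h2
  have h5 : (0 : ℝ) < D.card := by exact_mod_cast h3
  have h6 : 1 / (D.card : ℝ) ≤ 1 - kd α := by linarith
  rw [div_le_iff₀ h5] at h6
  have h7 : 0 ≤ 1 - kd α := by linarith [kd_le_one α]
  exact h6.trans (mul_le_mul_of_nonneg_left h4 h7)

/-- the projection of the basis vector at the identity to the kernel -/
theorem exists_w : ∃ w : G → ℂ, (∀ x, ∑ k ∈ α.support, α k * w (k⁻¹ * x) = 0) ∧
    w 1 = (kd α : ℂ) ∧ ∀ Q : Finset G, (1 : G) ∉ Q → ∑ g ∈ Q, ‖w g‖ ^ 2 ≤ kd α - kd α ^ 2 := by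
  classical
  set K := LinearMap.ker (cop α : EE G Unit →ₗ[ℂ] EE G Unit) with hK
  have hcl : IsClosed (K : Set (EE G Unit)) := ContinuousLinearMap.isClosed_ker (cop α)
  have : CompleteSpace K := hcl.completeSpace_coe
  set δ : EE G Unit := dl (((1 : G), ()) : G × Unit) with hδ
  set W : EE G Unit := K.starProjection δ with hW
  have hWK : W ∈ K := Submodule.starProjection_apply_mem K δ
  have hn : kd α = ‖W‖ ^ 2 := by
    unfold kd
    rw [vd_eq K K (topcl_eq hcl)]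
    simp only [Finset.univ_unique, PUnit.default_eq_unit, Finset.sum_singleton]
    rfl
  have hin : ⟪δ, W⟫_ℂ = ((‖W‖ ^ 2 : ℝ) : ℂ) := by
    have e1 : ⟪δ - W, W⟫_ℂ = 0 := Submodule.starProjection_inner_eq_zero δ W hWK
    rw [inner_sub_left, sub_eq_zero] at e1
    rw [e1, inner_self_eq_norm_sq_to_K]
    push_cast
    rfl
  rw [hδ, inner_dl_left] at hin
  refine ⟨fun g => W (g, ()), ?_, ?_, ?_⟩
  · intro x
    rw [← cop_apply]
    have e2 : cop α W = 0 := hWK
    rw [e2]; rfl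
  · rw [hn]; exact hin
  · intro Q hQ
    have h1 : Summable (fun y : G × Unit => ‖W y‖ ^ 2) := (memlp_two_iff _).1 W.2
    have h2 := h1.sum_le_tsum ((insert (1 : G) Q).map ⟨fun g : G => (g, ()), fun a b hab => by
      simpa using hab⟩) (fun _ _ => by positivity)
    rw [← norm_sq_tsum, Finset.sum_map, Finset.sum_insert hQ, ← hn] at h2
    have h3 : ‖W ((1 : G), ())‖ ^ 2 = kd α ^ 2 := by
      rw [hin, ← hn, Complex.norm_real, Real.norm_of_nonneg (kd_nonneg α)]
    have h4 : ‖W ((1 : G), ())‖ ^ 2 + ∑ g ∈ Q, ‖W (g, ())‖ ^ 2 ≤ kd α := h2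
    rw [h3] at h4
    linarith

/-- the maximal coefficient -/
theorem coef_le (x : G) (hx : x ∈ α.support) :
    ‖α x‖ ^ 2 ≤ (1 - kd α) * ∑ k ∈ α.support, ‖α k‖ ^ 2 := by
  classical
  obtain ⟨w, h1, h2, h3⟩ := exists_w α
  have hd0 := kd_nonneg α
  have hd1 := kd_le_one α
  set d := kd α with hd
  have e1 := h1 x
  rw [← Finset.add_sum_erase _ _ hx, inv_mul_cancel, h2] at e1
  have e2 : ‖α x‖ * d ≤ ∑ k ∈ α.support.erase x, ‖α k‖ * ‖w (k⁻¹ * x)‖ := by
    have e3 : α x * (d : ℂ) = -∑ k ∈ α.support.erase x, α k * w (k⁻¹ * x) := by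
      rw [eq_neg_iff_add_eq_zero]; exact e1
    have e4 : ‖α x‖ * d = ‖α x * (d : ℂ)‖ := by
      rw [norm_mul, Complex.norm_real, Real.norm_of_nonneg hd0]
    rw [e4, e3, norm_neg]
    refine (norm_sum_le _ _).trans (le_of_eq ?_)
    exact Finset.sum_congr rfl fun k _ => norm_mul _ _
  have e5 : (∑ k ∈ α.support.erase x, ‖α k‖ * ‖w (k⁻¹ * x)‖) ^ 2
      ≤ (∑ k ∈ α.support.erase x, ‖α k‖ ^ 2) * ∑ k ∈ α.support.erase x, ‖w (k⁻¹ * x)‖ ^ 2 :=
    Finset.sum_mul_sq_le_sq_mul_sq _ _ _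
  have e6 : ∑ k ∈ α.support.erase x, ‖w (k⁻¹ * x)‖ ^ 2 ≤ d - d ^ 2 := by
    have e7 := h3 ((α.support.erase x).image (fun k => k⁻¹ * x)) (by
      rw [Finset.mem_image]
      rintro ⟨k, hk, hk1⟩
      apply (Finset.mem_erase.1 hk).1
      rw [inv_mul_eq_one] at hk1
      exact hk1)
    rwa [Finset.sum_image (fun a _ b _ hab => inv_injective (mul_right_cancel hab))] at e7
  have e8 : ∑ k ∈ α.support.erase x, ‖α k‖ ^ 2 = ∑ k ∈ α.support, ‖α k‖ ^ 2 - ‖α x‖ ^ 2 := by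
    rw [← Finset.add_sum_erase _ (fun k => ‖α k‖ ^ 2) hx]; ring
  set N := ∑ k ∈ α.support, ‖α k‖ ^ 2 with hN
  have hxN : 0 ≤ N - ‖α x‖ ^ 2 := by rw [← e8]; positivity
  have e9 : (‖α x‖ * d) ^ 2 ≤ (N - ‖α x‖ ^ 2) * (d - d ^ 2) := by
    have e10 : (‖α x‖ * d) ^ 2 ≤ (∑ k ∈ α.support.erase x, ‖α k‖ * ‖w (k⁻¹ * x)‖) ^ 2 :=
      pow_le_pow_left₀ (by positivity) e2 2
    refine e10.trans (e5.trans ?_)
    rw [e8]
    exact mul_le_mul_of_nonneg_left e6 hxN
  rcases hd0.eq_or_lt with h0 | h0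
  · rw [← h0]; linarith
  · have e11 : ‖α x‖ ^ 2 * d ≤ (N - ‖α x‖ ^ 2) * (1 - d) := by
      have e12 : d * (‖α x‖ ^ 2 * d) ≤ d * ((N - ‖α x‖ ^ 2) * (1 - d)) := by
        have : d * (‖α x‖ ^ 2 * d) = (‖α x‖ * d) ^ 2 := by ring
        rw [this]
        have : d * ((N - ‖α x‖ ^ 2) * (1 - d)) = (N - ‖α x‖ ^ 2) * (d - d ^ 2) := by ring
        rw [this]
        exact e9
      exact le_of_mul_le_mul_left e12 h0
    nlinarith

/-- the main estimate -/
theorem energy (hα : α ≠ 0)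
    (hT : ∀ x ∈ α.support, ∀ y ∈ α.support, x ≠ y → ¬ IsOfFinOrder (x⁻¹ * y)) (M : ℝ)
    (hM : ∀ x ∈ α.support, ‖α x‖ ^ 2 ≤ M) :
    kd α * ∑ k ∈ α.support, ‖α k‖ ^ 2 ≤
      ((α.support.card : ℝ) - 1) * ((α.support.card : ℝ) * (1 - kd α) - 1) * M := by
  classical
  obtain ⟨w, h1, h2, h3⟩ := exists_w α
  have hd0 := kd_nonneg α
  have hd1 := kd_le_one α
  obtain ⟨s0, hs0⟩ := Finsupp.support_nonempty_iff.2 hα
  set T := α.support with hTdef
  set n : ℝ := (T.card : ℝ) with hn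
  set d := kd α with hd
  set N := ∑ k ∈ T, ‖α k‖ ^ 2 with hN
  have hn1 : 1 ≤ n := by
    rw [hn]; exact_mod_cast Finset.card_pos.2 ⟨s0, hs0⟩
  have hM0 : 0 ≤ M := le_trans (by positivity) (hM s0 hs0)
  have hNpos : 0 < N := by
    rw [hN]
    exact Finset.sum_pos (fun k hk => by
      have := norm_pos_iff.2 (Finsupp.mem_support_iff.1 hk)
      positivity) ⟨s0, hs0⟩
  -- `r n ≥ 1`
  have hcoefsum : N ≤ n * ((1 - d) * N) := by
    have := Finset.sum_le_sum (fun x hx => coef_le α x hx)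
    rw [Finset.sum_const, nsmul_eq_mul] at this
    exact this
  have hrn : 0 ≤ n * (1 - d) - 1 := by
    have : 0 ≤ (n * (1 - d) - 1) * N := by nlinarith
    exact nonneg_of_mul_nonneg_left this hNpos
  have hr : 0 < 1 - d := by
    by_contra hcon
    have : n * (1 - d) ≤ 0 := mul_nonpos_of_nonneg_of_nonpos (by linarith) (by linarith)
    linarith
  rcases hd0.eq_or_lt with h0 | hdpos
  · rw [← h0]
    have : 0 ≤ (n - 1) * (n * (1 - 0) - 1) * M := by
      apply mul_nonneg _ hM0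
      apply mul_nonneg <;> linarith
    linarith
  -- pairs
  set O := T.offDiag with hO
  set q : G × G → G := fun p => p.2⁻¹ * p.1 with hq
  set Q := O.image q with hQ
  have hQ1 : (1 : G) ∉ Q := by
    rw [hQ, Finset.mem_image]
    rintro ⟨p, hp, hp1⟩
    rw [hO, Finset.mem_offDiag] at hp
    apply hp.2.2
    have : p.2 = p.1 := inv_mul_eq_one.1 hp1
    exact this.symm
  set a : G × G → ℝ := fun p => ‖α p.1‖ * ‖α p.2‖ with ha
  set B : G → ℝ := fun g => ∑ p ∈ O with q p = g, a p with hB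
  have ha0 : ∀ p, 0 ≤ a p := fun p => by positivity
  have hB0 : ∀ g, 0 ≤ B g := fun g => Finset.sum_nonneg fun p _ => ha0 p
  -- the basic identity
  have k1 : N * d ≤ ∑ p ∈ O, a p * ‖w (q p)‖ := by
    have e1 : ∑ x ∈ T, (starRingEnd ℂ (α x)) * ∑ k ∈ T, α k * w (k⁻¹ * x) = 0 :=
      Finset.sum_eq_zero fun x _ => by rw [h1 x, mul_zero]
    have e2 : ∑ p ∈ T ×ˢ T, (starRingEnd ℂ (α p.1)) * (α p.2 * w (p.2⁻¹ * p.1)) = 0 := by
      rw [Finset.sum_product]
      rw [← e1]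
      refine Finset.sum_congr rfl fun x _ => ?_
      rw [Finset.mul_sum]
    rw [← Finset.diag_union_offDiag, Finset.sum_union (Finset.disjoint_diag_offDiag T)] at e2
    have e3 : ∑ p ∈ T.diag, (starRingEnd ℂ (α p.1)) * (α p.2 * w (p.2⁻¹ * p.1))
        = ((N * d : ℝ) : ℂ) := by
      rw [Finset.sum_diag]
      have : ∀ x ∈ T, (starRingEnd ℂ (α x)) * (α x * w (x⁻¹ * x))
          = ((‖α x‖ ^ 2 * d : ℝ) : ℂ) := by
        intro x _
        rw [inv_mul_cancel, h2, ← mul_assoc, mul_comm ((starRingEnd ℂ) (α x)), Complex.mul_conj,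
          Complex.normSq_eq_norm_sq]
        push_cast
        ring
      rw [Finset.sum_congr rfl this, hN, Finset.sum_mul]
      push_cast
      rfl
    rw [e3] at e2
    have e4 : ((N * d : ℝ) : ℂ) = -∑ p ∈ O, (starRingEnd ℂ (α p.1)) * (α p.2 * w (p.2⁻¹ * p.1)) :=
      eq_neg_of_add_eq_zero_left e2
    have e5 : N * d = ‖((N * d : ℝ) : ℂ)‖ := by
      rw [Complex.norm_real, Real.norm_of_nonneg (by positivity)]
    rw [e5, e4, norm_neg]
    refine (norm_sum_le _ _).trans (le_of_eq ?_)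
    refine Finset.sum_congr rfl fun p _ => ?_
    rw [norm_mul, norm_mul, RCLike.norm_conj, ← mul_assoc]
  have k2 : ∑ p ∈ O, a p * ‖w (q p)‖ = ∑ g ∈ Q, B g * ‖w g‖ := by
    rw [← Finset.sum_fiberwise_of_maps_to (g := q) (t := Q)
      (fun p hp => Finset.mem_image_of_mem q hp)]
    refine Finset.sum_congr rfl fun g _ => ?_
    rw [hB, Finset.sum_mul]
    refine Finset.sum_congr rfl fun p hp => ?_
    rw [(Finset.mem_filter.1 hp).2]
  have k3 : (∑ g ∈ Q, B g * ‖w g‖) ^ 2 ≤ (∑ g ∈ Q, B g ^ 2) * ∑ g ∈ Q, ‖w g‖ ^ 2 :=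
    Finset.sum_mul_sq_le_sq_mul_sq _ _ _
  -- the bound of `B`
  set b := (n * (1 - d) - 1) / (1 - d) * M with hb
  have hb0 : 0 ≤ b := by positivity
  have k4 : ∀ g ∈ Q, B g ≤ b := by
    intro g hg
    obtain ⟨p0, hp0, hp0g⟩ := Finset.mem_image.1 hg
    rw [hO, Finset.mem_offDiag] at hp0
    have hgz : ¬ IsOfFinOrder g := by
      rw [← hp0g]
      exact hT _ hp0.2.1 _ hp0.1 (fun h => hp0.2.2 h.symm)
    have c1 := chain_bound α hα g hgz
    have c2 : B g ≤ ((O.filter (fun p => q p = g)).card : ℝ) * M := by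
      rw [hB]
      refine (Finset.sum_le_card_nsmul _ _ M ?_).trans (le_of_eq (nsmul_eq_mul _ _))
      intro p hp
      have hp' := (Finset.mem_filter.1 hp).1
      rw [hO, Finset.mem_offDiag] at hp'
      have m1 := hM _ hp'.1
      have m2 := hM _ hp'.2.1
      have m3 : 2 * (‖α p.1‖ * ‖α p.2‖) ≤ ‖α p.1‖ ^ 2 + ‖α p.2‖ ^ 2 := by
        nlinarith [sq_nonneg (‖α p.1‖ - ‖α p.2‖)]
      change ‖α p.1‖ * ‖α p.2‖ ≤ M
      linarith
    have c3 : (O.filter (fun p => q p = g)).card ≤ (RR α g).card := by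
      refine Finset.card_le_card_of_injOn Prod.fst ?_ ?_
      · intro p hp
        have hp1 := (Finset.mem_filter.1 hp).1
        have hp2 := (Finset.mem_filter.1 hp).2
        rw [hO, Finset.mem_offDiag] at hp1
        unfold RR
        rw [Finset.coe_filter]
        refine ⟨hp1.1, ?_⟩
        have : p.1 * g⁻¹ = p.2 := by
          rw [← hp2, hq]
          simp
        rw [this]
        exact hp1.2.1
      · intro p hp p' hp' he
        have hp2 : p.2⁻¹ * p.1 = g := (Finset.mem_filter.1 hp).2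
        have hp2' : p'.2⁻¹ * p'.1 = g := (Finset.mem_filter.1 hp').2
        have e1 : p.2⁻¹ * p.1 = p'.2⁻¹ * p.1 := by rw [hp2, ← hp2', he]
        exact Prod.ext he (inv_injective (mul_right_cancel e1))
    have c4 : ((RR α g).card : ℝ) ≤ (n * (1 - d) - 1) / (1 - d) := by
      rw [le_div_iff₀ hr]
      linarith
    have c5 : ((O.filter (fun p => q p = g)).card : ℝ) ≤ (RR α g).card := by exact_mod_cast c3
    exact c2.trans (mul_le_mul_of_nonneg_right (c5.trans c4) hM0)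
  have k5 : ∑ g ∈ Q, B g = ∑ p ∈ O, a p := by
    rw [hB]
    exact Finset.sum_fiberwise_of_maps_to (fun p hp => Finset.mem_image_of_mem q hp) _
  have k6 : ∑ p ∈ O, a p ≤ (n - 1) * N := by
    have e1 : ∑ p ∈ T ×ˢ T, a p = (∑ x ∈ T, ‖α x‖) ^ 2 := by
      rw [Finset.sum_product, sq, Finset.sum_mul_sum]
    have e2 : ∑ p ∈ T.diag, a p = N := by
      rw [Finset.sum_diag, hN]
      exact Finset.sum_congr rfl fun x _ => (sq _).symm
    rw [← Finset.diag_union_offDiag, Finset.sum_union (Finset.disjoint_diag_offDiag T), e2] at e1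
    have e3 : (∑ x ∈ T, ‖α x‖) ^ 2 ≤ n * N := sq_sum_le_card_mul_sum_sq
    linarith
  have k7 : ∑ g ∈ Q, B g ^ 2 ≤ b * ((n - 1) * N) := by
    calc ∑ g ∈ Q, B g ^ 2 ≤ ∑ g ∈ Q, b * B g := Finset.sum_le_sum fun g hg => by
          rw [sq]; exact mul_le_mul_of_nonneg_right (k4 g hg) (hB0 g)
      _ = b * ∑ g ∈ Q, B g := by rw [Finset.mul_sum]
      _ ≤ b * ((n - 1) * N) := mul_le_mul_of_nonneg_left (k5.le.trans k6) hb0
  have k8 := h3 Q hQ1
  have k9 : (N * d) ^ 2 ≤ b * ((n - 1) * N) * (d - d ^ 2) := by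
    have hw0 : 0 ≤ ∑ g ∈ Q, ‖w g‖ ^ 2 := by positivity
    have hbn : 0 ≤ b * ((n - 1) * N) := mul_nonneg hb0 (mul_nonneg (by linarith) hNpos.le)
    calc (N * d) ^ 2 ≤ (∑ g ∈ Q, B g * ‖w g‖) ^ 2 := by
          rw [← k2]; exact pow_le_pow_left₀ (by positivity) k1 2
      _ ≤ (∑ g ∈ Q, B g ^ 2) * ∑ g ∈ Q, ‖w g‖ ^ 2 := k3
      _ ≤ b * ((n - 1) * N) * ∑ g ∈ Q, ‖w g‖ ^ 2 := mul_le_mul_of_nonneg_right k7 hw0
      _ ≤ b * ((n - 1) * N) * (d - d ^ 2) := mul_le_mul_of_nonneg_left k8 hbn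
  have k10 : b * (1 - d) = (n * (1 - d) - 1) * M := by
    rw [hb]
    field_simp
  have k11 : (N * d) * (d * N) ≤ (N * d) * ((n - 1) * (n * (1 - d) - 1) * M) := by
    calc (N * d) * (d * N) = (N * d) ^ 2 := by ring
      _ ≤ b * ((n - 1) * N) * (d - d ^ 2) := k9
      _ = (N * d) * ((n - 1) * (b * (1 - d))) := by ring
      _ = (N * d) * ((n - 1) * (n * (1 - d) - 1) * M) := by rw [k10]; ring
  exact le_of_mul_le_mul_left k11 (by positivity)

/-- all coefficients -/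
theorem quadratic (hα : α ≠ 0)
    (hT : ∀ x ∈ α.support, ∀ y ∈ α.support, x ≠ y → ¬ IsOfFinOrder (x⁻¹ * y)) :
    ((α.support.card : ℝ) - 2) * (1 - kd α) + 1
      ≤ (α.support.card : ℝ) * ((α.support.card : ℝ) - 1) * (1 - kd α) ^ 2 := by
  obtain ⟨s0, hs0⟩ := Finsupp.support_nonempty_iff.2 hα
  have hNpos : 0 < ∑ k ∈ α.support, ‖α k‖ ^ 2 :=
    Finset.sum_pos (fun k hk => by
      have := norm_pos_iff.2 (Finsupp.mem_support_iff.1 hk)
      positivity) ⟨s0, hs0⟩
  have h1 := energy α hα hT ((1 - kd α) * ∑ k ∈ α.support, ‖α k‖ ^ 2) (coef_le α)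
  set N := ∑ k ∈ α.support, ‖α k‖ ^ 2
  set n : ℝ := (α.support.card : ℝ)
  set d := kd α
  have h2 : N * d ≤ N * ((n - 1) * (n * (1 - d) - 1) * (1 - d)) := by
    calc N * d = d * N := by ring
      _ ≤ (n - 1) * (n * (1 - d) - 1) * ((1 - d) * N) := h1
      _ = _ := by ring
  have h3 := le_of_mul_le_mul_left h2 hNpos
  nlinarith

/-- coefficients of constant absolute value -/
theorem constant (hα : α ≠ 0)
    (hT : ∀ x ∈ α.support, ∀ y ∈ α.support, x ≠ y → ¬ IsOfFinOrder (x⁻¹ * y))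
    (hc : ∀ x ∈ α.support, ∀ y ∈ α.support, ‖α x‖ = ‖α y‖) :
    kd α ≤ (1 - 1 / (α.support.card : ℝ)) ^ 2 := by
  obtain ⟨s0, hs0⟩ := Finsupp.support_nonempty_iff.2 hα
  have hpos : 0 < ‖α s0‖ ^ 2 := by
    have := norm_pos_iff.2 (Finsupp.mem_support_iff.1 hs0)
    positivity
  have h1 := energy α hα hT (‖α s0‖ ^ 2) (fun x hx => by rw [hc x hx s0 hs0])
  have h2 : ∑ k ∈ α.support, ‖α k‖ ^ 2 = (α.support.card : ℝ) * ‖α s0‖ ^ 2 := by
    rw [Finset.sum_congr rfl (fun x hx => by rw [hc x hx s0 hs0]), Finset.sum_const, nsmul_eq_mul]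
  rw [h2] at h1
  set n : ℝ := (α.support.card : ℝ) with hn
  set d := kd α
  have hn1 : 0 < n := by
    rw [hn]; exact_mod_cast Finset.card_pos.2 ⟨s0, hs0⟩
  have h3 : ‖α s0‖ ^ 2 * (d * n) ≤ ‖α s0‖ ^ 2 * ((n - 1) * (n * (1 - d) - 1)) := by
    calc ‖α s0‖ ^ 2 * (d * n) = d * (n * ‖α s0‖ ^ 2) := by ring
      _ ≤ _ := h1
      _ = _ := by ring
  have h4 := le_of_mul_le_mul_left h3 hpos
  have h5 : d * n ^ 2 ≤ (n - 1) ^ 2 := by nlinarith
  have h6 : (1 - 1 / n) ^ 2 = (n - 1) ^ 2 / n ^ 2 := by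
    field_simp
  rw [h6, le_div_iff₀ (by positivity)]
  exact h5

end

end Pool.Agent.Helper175_AZ
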