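import Pool.Agent.W649.ZL.Supp
import Pool.Agent.W649.ZL.Core

set_option autoImplicit false
set_option linter.unusedSectionVars false
set_option linter.unusedSimpArgs false

open scoped InnerProductSpace InnerProduct ENNReal

/-! Extension by zero and restriction of square-summable functions. -/

namespace Pool.Agent.Helper175_AZ

open Pool.Agent.W649.ZL

universe u v w

section general
variable {X : Type u} {Y : Type v}

theorem memlp_ext (i : X → Y) (hi : Function.Injective i) (F : lp (fun _ : X => ℂ) 2) :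
    Memℓp (Function.extend i (fun x => F x) 0) 2 := by
  rw [memlp_two_iff]
  refine (hi.summable_iff ?_).1 ?_
  · intro y hy
    rw [Function.extend_apply']
    · simp
    · intro h; exact hy (by obtain ⟨a, ha⟩ := h; exact ⟨a, ha⟩)
  · have h1 := (memlp_two_iff _).1 F.2
    convert h1 using 1
    ext x
    simp [hi.extend_apply]

/-- extension by zero -/
noncomputable def extFun (i : X → Y) (hi : Function.Injective i) (F : lp (fun _ : X => ℂ) 2) :
    lp (fun _ : Y => ℂ) 2 :=
  ⟨Function.extend i (fun x => F x) 0, memlp_ext i hi F⟩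

theorem extFun_apply (i : X → Y) (hi : Function.Injective i) (F : lp (fun _ : X => ℂ) 2) (x : X) :
    extFun i hi F (i x) = F x := hi.extend_apply _ _ _

theorem extFun_apply' (i : X → Y) (hi : Function.Injective i) (F : lp (fun _ : X => ℂ) 2) (y : Y)
    (hy : y ∉ Set.range i) : extFun i hi F y = 0 := by
  change Function.extend i (fun x => F x) 0 y = 0
  rw [Function.extend_apply']
  · rfl
  · intro h; exact hy (by obtain ⟨a, ha⟩ := h; exact ⟨a, ha⟩)

theorem norm_extFun (i : X → Y) (hi : Function.Injective i) (F : lp (fun _ : X => ℂ) 2) :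
    ‖extFun i hi F‖ = ‖F‖ := by
  have e : ‖extFun i hi F‖ ^ 2 = ‖F‖ ^ 2 := by
    rw [norm_sq_tsum, norm_sq_tsum]
    rw [← hi.tsum_eq (f := fun y => ‖extFun i hi F y‖ ^ 2)]
    · refine tsum_congr fun x => ?_
      rw [extFun_apply]
    · intro y hy
      by_contra hcon
      apply hy
      simp [extFun_apply' i hi F y hcon]
  exact (sq_eq_sq₀ (norm_nonneg _) (norm_nonneg _)).1 e

/-- extension by zero as a linear isometry -/
noncomputable def extL (i : X → Y) (hi : Function.Injective i) :
    lp (fun _ : X => ℂ) 2 →ₗᵢ[ℂ] lp (fun _ : Y => ℂ) 2 where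
  toFun := extFun i hi
  map_add' := fun f g => by
    ext y
    by_cases hy : y ∈ Set.range i
    · obtain ⟨x, rfl⟩ := hy
      change extFun i hi (f + g) (i x) = extFun i hi f (i x) + extFun i hi g (i x)
      rw [extFun_apply, extFun_apply, extFun_apply]
      rfl
    · change extFun i hi (f + g) y = extFun i hi f y + extFun i hi g y
      rw [extFun_apply' _ _ _ _ hy, extFun_apply' _ _ _ _ hy, extFun_apply' _ _ _ _ hy, add_zero]
  map_smul' := fun c f => by
    ext y
    by_cases hy : y ∈ Set.range i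
    · obtain ⟨x, rfl⟩ := hy
      change extFun i hi (c • f) (i x) = c • extFun i hi f (i x)
      rw [extFun_apply, extFun_apply]
      rfl
    · change extFun i hi (c • f) y = c • extFun i hi f y
      rw [extFun_apply' _ _ _ _ hy, extFun_apply' _ _ _ _ hy, smul_zero]
  norm_map' := norm_extFun i hi

theorem extL_apply (i : X → Y) (hi : Function.Injective i) (F : lp (fun _ : X => ℂ) 2) (x : X) :
    extL i hi F (i x) = F x := extFun_apply i hi F x

theorem extL_apply' (i : X → Y) (hi : Function.Injective i) (F : lp (fun _ : X => ℂ) 2) (y : Y)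
    (hy : y ∉ Set.range i) : extL i hi F y = 0 := extFun_apply' i hi F y hy

theorem memlp_res (i : X → Y) (hi : Function.Injective i) (F : lp (fun _ : Y => ℂ) 2) :
    Memℓp (fun x => F (i x)) 2 := by
  rw [memlp_two_iff]
  have h1 := (memlp_two_iff _).1 F.2
  exact h1.comp_injective hi

/-- restriction -/
noncomputable def resFun (i : X → Y) (hi : Function.Injective i) (F : lp (fun _ : Y => ℂ) 2) :
    lp (fun _ : X => ℂ) 2 :=
  ⟨fun x => F (i x), memlp_res i hi F⟩

theorem norm_resFun_le (i : X → Y) (hi : Function.Injective i) (F : lp (fun _ : Y => ℂ) 2) :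
    ‖resFun i hi F‖ ≤ ‖F‖ := by
  have e : ‖resFun i hi F‖ ^ 2 ≤ ‖F‖ ^ 2 := by
    rw [norm_sq_tsum, norm_sq_tsum]
    have h1 := (memlp_two_iff _).1 F.2
    exact tsum_comp_le_tsum_of_inj h1 (fun _ => by positivity) hi
  exact (sq_le_sq₀ (norm_nonneg _) (norm_nonneg _)).1 e

/-- restriction as a continuous linear map -/
noncomputable def resL (i : X → Y) (hi : Function.Injective i) :
    lp (fun _ : Y => ℂ) 2 →L[ℂ] lp (fun _ : X => ℂ) 2 :=
  LinearMap.mkContinuous
    { toFun := resFun i hi
      map_add' := fun f g => by ext x; rfl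
      map_smul' := fun c f => by ext x; rfl } 1
    (fun h => by rw [one_mul]; exact norm_resFun_le i hi h)

theorem resL_apply (i : X → Y) (hi : Function.Injective i) (F : lp (fun _ : Y => ℂ) 2) (x : X) :
    resL i hi F x = F (i x) := rfl

theorem ext_res (i : X → Y) (hi : Function.Injective i) (F : lp (fun _ : Y => ℂ) 2)
    (hF : ∀ y, F y ≠ 0 → y ∈ Set.range i) : extL i hi (resL i hi F) = F := by
  ext y
  by_cases hy : y ∈ Set.range i
  · obtain ⟨x, rfl⟩ := hy
    rw [extL_apply, resL_apply]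
  · rw [extL_apply' _ _ _ _ hy]
    by_contra h
    exact hy (hF y (fun h0 => h h0.symm))

theorem res_ext (i : X → Y) (hi : Function.Injective i) (F : lp (fun _ : X => ℂ) 2) :
    resL i hi (extL i hi F) = F := by
  ext x
  rw [resL_apply, extL_apply]

end general

section cosets
variable {G : Type u} [Group G] (H : Subgroup G)

/-- the parametrisation of a union of left cosets -/
noncomputable def cmap (C : Finset (G ⧸ H)) (x : H × C) : G × Unit := ((x.2 : G ⧸ H).out * (x.1 : G), ())

theorem mk_cmap (C : Finset (G ⧸ H)) (x : H × C) :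
    ((cmap H C x).1 : G ⧸ H) = (x.2 : G ⧸ H) := by
  change (((x.2 : G ⧸ H).out * (x.1 : G) : G) : G ⧸ H) = (x.2 : G ⧸ H)
  rw [QuotientGroup.mk_mul_of_mem _ x.1.2]
  exact QuotientGroup.out_eq' _

theorem cmap_inj (C : Finset (G ⧸ H)) : Function.Injective (cmap H C) := by
  intro x y hxy
  have h1 : (x.2 : G ⧸ H) = (y.2 : G ⧸ H) := by
    rw [← mk_cmap H C x, ← mk_cmap H C y, hxy]
  have h2 := congrArg Prod.fst hxy
  change (x.2 : G ⧸ H).out * (x.1 : G) = (y.2 : G ⧸ H).out * (y.1 : G) at h2
  rw [h1] at h2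
  exact Prod.ext (Subtype.ext (mul_left_cancel h2)) (Subtype.ext h1)

theorem mem_range_cmap (C : Finset (G ⧸ H)) (y : G × Unit) :
    y ∈ Set.range (cmap H C) ↔ (y.1 : G ⧸ H) ∈ C := by
  constructor
  · rintro ⟨x, rfl⟩
    rw [mk_cmap]; exact x.2.2
  · intro hy
    obtain ⟨g, ⟨⟩⟩ := y
    have h1 : ((g : G ⧸ H).out)⁻¹ * g ∈ H := by
      rw [← QuotientGroup.eq, QuotientGroup.out_eq']
    refine ⟨(⟨_, h1⟩, ⟨(g : G ⧸ H), hy⟩), ?_⟩
    change ((g : G ⧸ H).out * (((g : G ⧸ H).out)⁻¹ * g), ()) = (g, ())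
    rw [mul_inv_cancel_left]

/-- extension by zero from a union of cosets -/
noncomputable abbrev eC (C : Finset (G ⧸ H)) : EE H C →ₗᵢ[ℂ] EE G Unit :=
  extL (cmap H C) (cmap_inj H C)

/-- restriction to a union of cosets -/
noncomputable abbrev rC (C : Finset (G ⧸ H)) : EE G Unit →L[ℂ] EE H C :=
  resL (cmap H C) (cmap_inj H C)

theorem cmap_mul (C : Finset (G ⧸ H)) (h k : H) (c : C) :
    cmap H C (h * k, c) = ((cmap H C (h, c)).1 * (k : G), ()) := by
  change ((c : G ⧸ H).out * ((h : G) * (k : G)), ()) = ((c : G ⧸ H).out * (h : G) * (k : G), ())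
  rw [mul_assoc]

theorem rC_tr (C : Finset (G ⧸ H)) (k : H) (f : EE G Unit) :
    rC H C (tr (k : G) f) = tr k (rC H C f) := by
  ext ⟨h, c⟩
  rw [tr_apply]
  change tr (k : G) f (cmap H C (h, c)) = f (cmap H C (h * k, c))
  rw [cmap_mul]
  rfl

theorem eC_tr (C : Finset (G ⧸ H)) (k : H) (f : EE H C) :
    eC H C (tr k f) = tr (k : G) (eC H C f) := by
  have h1 : rC H C (tr (k : G) (eC H C f)) = tr k f := by
    rw [rC_tr, res_ext]
  rw [← h1, ext_res]
  intro y hy
  rw [mem_range_cmap]
  have h2 : eC H C f (y.1 * (k : G), ()) ≠ 0 := hy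
  have h3 : ((y.1 * (k : G), ()) : G × Unit) ∈ Set.range (cmap H C) := by
    by_contra hcon
    exact h2 (extL_apply' _ _ _ _ hcon)
  rw [mem_range_cmap] at h3
  rwa [QuotientGroup.mk_mul_of_mem _ k.2] at h3

theorem supp_eC (C : Finset (G ⧸ H)) (F : EE H C) (y : G × Unit) (hy : eC H C F y ≠ 0) :
    (y.1 : G ⧸ H) ∈ C := by
  rw [← mem_range_cmap]
  by_contra hcon
  exact hy (extL_apply' _ _ _ _ hcon)

theorem eC_dl (C : Finset (G ⧸ H)) (c : C) :
    eC H C (dl ((1 : H), c)) = dl (((c : G ⧸ H).out, ()) : G × Unit) := by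
  have hc : cmap H C ((1 : H), c) = (((c : G ⧸ H).out, ()) : G × Unit) := by
    change ((c : G ⧸ H).out * ((1 : H) : G), ()) = _
    rw [Subgroup.coe_one, mul_one]
  ext y
  by_cases hy : y ∈ Set.range (cmap H C)
  · obtain ⟨x, rfl⟩ := hy
    rw [extL_apply]
    by_cases hx : x = ((1 : H), c)
    · subst hx
      rw [dl_apply_self, hc, dl_apply_self]
    · rw [dl_apply_ne _ _ hx, dl_apply_ne]
      intro h
      rw [← hc] at h
      exact hx (cmap_inj H C h)
  · rw [extL_apply' _ _ _ _ hy, dl_apply_ne]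
    intro h
    apply hy
    rw [h, ← hc]
    exact ⟨_, rfl⟩

end cosets

end Pool.Agent.Helper175_AZ
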