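import Pool.Agent.Helper175_AZ.Window
import Pool.Agent.Helper175_AZ.Comb
import Pool.Agent.W649.ZL.Mat

set_option autoImplicit false
set_option linter.unusedSectionVars false
set_option linter.unusedSimpArgs false

open scoped InnerProductSpace InnerProduct ENNReal

/-! Windows for matrices over the group algebra. -/

namespace Pool.Agent.Helper175_AZ

open Pool.Agent.W649.ZL

universe u v w z

section cosets
variable {G : Type u} [Group G] (H : Subgroup G) {K : Type v} {L : Type w}

/-- the parametrisation of a union of left cosets -/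
noncomputable def cmapK (K : Type v) (C : Finset (G ⧸ H)) (x : H × (C × K)) : G × K :=
  ((x.2.1 : G ⧸ H).out * (x.1 : G), x.2.2)

theorem mk_cmapK (C : Finset (G ⧸ H)) (x : H × (C × K)) :
    ((cmapK H K C x).1 : G ⧸ H) = (x.2.1 : G ⧸ H) := by
  change (((x.2.1 : G ⧸ H).out * (x.1 : G) : G) : G ⧸ H) = (x.2.1 : G ⧸ H)
  rw [QuotientGroup.mk_mul_of_mem _ x.1.2]
  exact QuotientGroup.out_eq' _

theorem cmapK_inj (C : Finset (G ⧸ H)) : Function.Injective (cmapK H K C) := by
  intro x y hxy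
  have h1 : (x.2.1 : G ⧸ H) = (y.2.1 : G ⧸ H) := by
    rw [← mk_cmapK H C x, ← mk_cmapK H C y, hxy]
  have h2 := congrArg Prod.fst hxy
  have h3 : x.2.2 = y.2.2 := by
    have h4 := congrArg Prod.snd hxy
    exact h4
  change (x.2.1 : G ⧸ H).out * (x.1 : G) = (y.2.1 : G ⧸ H).out * (y.1 : G) at h2
  rw [h1] at h2
  exact Prod.ext (Subtype.ext (mul_left_cancel h2)) (Prod.ext (Subtype.ext h1) h3)

theorem mem_range_cmapK (C : Finset (G ⧸ H)) (y : G × K) :
    y ∈ Set.range (cmapK H K C) ↔ (y.1 : G ⧸ H) ∈ C := by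
  constructor
  · rintro ⟨x, rfl⟩
    rw [mk_cmapK]; exact x.2.1.2
  · intro hy
    obtain ⟨g, k⟩ := y
    have h1 : ((g : G ⧸ H).out)⁻¹ * g ∈ H := by
      rw [← QuotientGroup.eq, QuotientGroup.out_eq']
    refine ⟨(⟨_, h1⟩, (⟨(g : G ⧸ H), hy⟩, k)), ?_⟩
    change ((g : G ⧸ H).out * (((g : G ⧸ H).out)⁻¹ * g), k) = (g, k)
    rw [mul_inv_cancel_left]

/-- extension by zero from a union of cosets -/
noncomputable abbrev eK (K : Type v) (C : Finset (G ⧸ H)) : EE H (C × K) →ₗᵢ[ℂ] EE G K :=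
  extL (cmapK H K C) (cmapK_inj H C)

/-- restriction to a union of cosets -/
noncomputable abbrev rK (K : Type v) (C : Finset (G ⧸ H)) : EE G K →L[ℂ] EE H (C × K) :=
  resL (cmapK H K C) (cmapK_inj H C)

theorem cmapK_mul (C : Finset (G ⧸ H)) (h k : H) (c : C × K) :
    cmapK H K C (h * k, c) = ((cmapK H K C (h, c)).1 * (k : G), c.2) := by
  change ((c.1 : G ⧸ H).out * ((h : G) * (k : G)), c.2)
    = ((c.1 : G ⧸ H).out * (h : G) * (k : G), c.2)
  rw [mul_assoc]

theorem rK_tr (C : Finset (G ⧸ H)) (k : H) (f : EE G K) :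
    rK H K C (tr (k : G) f) = tr k (rK H K C f) := by
  ext ⟨h, c⟩
  rw [tr_apply]
  change tr (k : G) f (cmapK H K C (h, c)) = f (cmapK H K C (h * k, c))
  rw [cmapK_mul]
  rfl

theorem eK_tr (C : Finset (G ⧸ H)) (k : H) (f : EE H (C × K)) :
    eK H K C (tr k f) = tr (k : G) (eK H K C f) := by
  have h1 : rK H K C (tr (k : G) (eK H K C f)) = tr k f := by
    rw [rK_tr, res_ext]
  rw [← h1, ext_res]
  intro y hy
  rw [mem_range_cmapK]
  have h2 : eK H K C f (y.1 * (k : G), y.2) ≠ 0 := hy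
  have h3 : ((y.1 * (k : G), y.2) : G × K) ∈ Set.range (cmapK H K C) := by
    by_contra hcon
    exact h2 (extL_apply' _ _ _ _ hcon)
  rw [mem_range_cmapK] at h3
  rwa [QuotientGroup.mk_mul_of_mem _ k.2] at h3

theorem supp_eK (C : Finset (G ⧸ H)) (F : EE H (C × K)) (y : G × K) (hy : eK H K C F y ≠ 0) :
    (y.1 : G ⧸ H) ∈ C := by
  rw [← mem_range_cmapK]
  by_contra hcon
  exact hy (extL_apply' _ _ _ _ hcon)

theorem eK_dl (C : Finset (G ⧸ H)) (c : C × K) :
    eK H K C (dl ((1 : H), c)) = dl (((c.1 : G ⧸ H).out, c.2) : G × K) := by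
  have hc : cmapK H K C ((1 : H), c) = (((c.1 : G ⧸ H).out, c.2) : G × K) := by
    change ((c.1 : G ⧸ H).out * ((1 : H) : G), c.2) = _
    rw [Subgroup.coe_one, mul_one]
  ext y
  by_cases hy : y ∈ Set.range (cmapK H K C)
  · obtain ⟨x, rfl⟩ := hy
    rw [extL_apply]
    by_cases hx : x = ((1 : H), c)
    · subst hx
      rw [dl_apply_self, hc, dl_apply_self]
    · rw [dl_apply_ne _ _ hx, dl_apply_ne]
      intro h
      rw [← hc] at h
      exact hx (cmapK_inj H C h)
  · rw [extL_apply' _ _ _ _ hy, dl_apply_ne]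
    intro h
    apply hy
    rw [h, ← hc]
    exact ⟨_, rfl⟩

/-- `T` maps functions supported on `C` to functions supported on `D` -/
def Prp (T : EE G K →L[ℂ] EE G L) (C D : Finset (G ⧸ H)) : Prop :=
  ∀ f : EE G K, (∀ y : G × K, f y ≠ 0 → (y.1 : G ⧸ H) ∈ C) →
    ∀ y : G × L, T f y ≠ 0 → (y.1 : G ⧸ H) ∈ D

/-- the window operator -/
noncomputable def TK (T : EE G K →L[ℂ] EE G L) (C D : Finset (G ⧸ H)) :
    EE H (C × K) →L[ℂ] EE H (D × L) :=
  (rK H L D).comp (T.comp (eK H K C).toContinuousLinearMap)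

variable (T : EE G K →L[ℂ] EE G L)

theorem TK_apply (C D : Finset (G ⧸ H)) (F : EE H (C × K)) :
    TK H T C D F = rK H L D (T (eK H K C F)) := rfl

theorem TK_eqv (hT : Eqv T) (C D : Finset (G ⧸ H)) : Eqv (TK H T C D) := by
  intro k F
  rw [TK_apply, TK_apply, eK_tr, hT, rK_tr]

theorem eK_TK (C D : Finset (G ⧸ H)) (hD : Prp H T C D) (F : EE H (C × K)) :
    eK H L D (TK H T C D F) = T (eK H K C F) := by
  rw [TK_apply, ext_res]
  intro y hy
  rw [mem_range_cmapK]
  exact hD _ (supp_eK H C F) y hy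

theorem isometry_trK (k : G) : Isometry (tr k : EE G K → EE G K) := by
  apply Isometry.of_dist_eq
  intro f g
  have e : tr k f - tr k g = tr k (f - g) := by ext x; rfl
  rw [dist_eq_norm, dist_eq_norm, e, norm_tr]

theorem infDist_dlK (P : Submodule ℂ (EE G K)) (hP : Pool.Agent.W649.ZL.Inv P) (g : G) (k : K) :
    Metric.infDist (dl ((g, k) : G × K)) (P : Set (EE G K))
      = Metric.infDist (dl (((1 : G), k) : G × K)) (P : Set (EE G K)) := by
  have h1 : tr g '' (P : Set (EE G K)) = (P : Set (EE G K)) := by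
    apply Set.Subset.antisymm
    · rintro _ ⟨f, hf, rfl⟩
      exact hP g f hf
    · intro f hf
      refine ⟨tr g⁻¹ f, hP _ _ hf, ?_⟩
      rw [tr_tr, mul_inv_cancel, tr_one]
  have h2 := Metric.infDist_image (isometry_trK g) (x := dl ((g, k) : G × K))
    (t := (P : Set (EE G K)))
  rw [h1, tr_dl, mul_inv_cancel] at h2
  exact h2.symm

variable [Fintype K] [Fintype L]

theorem vd_rangeK_le (hT : Eqv T) (C D : Finset (G ⧸ H)) (hD : Prp H T C D) :
    vd (LinearMap.range (TK H T C D : EE H (C × K) →ₗ[ℂ] EE H (D × L)))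
      ≤ D.card * vd (LinearMap.range (T : EE G K →ₗ[ℂ] EE G L)) := by
  classical
  rw [← vd_closure, vd_eq_infDist _ (Submodule.isClosed_topologicalClosure _),
    ← vd_closure (LinearMap.range (T : EE G K →ₗ[ℂ] EE G L)),
    vd_eq_infDist _ (Submodule.isClosed_topologicalClosure _)]
  set P' := (LinearMap.range (TK H T C D : EE H (C × K) →ₗ[ℂ] EE H (D × L))).topologicalClosure
    with hP'
  set R' := (LinearMap.range (T : EE G K →ₗ[ℂ] EE G L)).topologicalClosure with hR'
  have hsub : eK H L D '' (P' : Set (EE H (D × L))) ⊆ (R' : Set (EE G L)) := by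
    rw [hP', hR', Submodule.topologicalClosure_coe, Submodule.topologicalClosure_coe]
    refine (image_closure_subset_closure_image (eK H L D).continuous).trans (closure_mono ?_)
    rintro _ ⟨_, ⟨F, rfl⟩, rfl⟩
    exact ⟨eK H K C F, (eK_TK H T C D hD F).symm⟩
  have key : ∀ (d : D) (l : L),
      1 - Metric.infDist (dl ((1 : H), ((d, l) : D × L))) (P' : Set (EE H (D × L))) ^ 2
        ≤ 1 - Metric.infDist (dl ((1 : G), l)) (R' : Set (EE G L)) ^ 2 := by
    intro d l
    rw [← infDist_dlK R' ((inv_range T hT).topologicalClosure) ((d : G ⧸ H).out) l]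
    have e1 : (dl (((d : G ⧸ H).out, l) : G × L) : EE G L)
        = eK H L D (dl ((1 : H), ((d, l) : D × L))) := (eK_dl H D (d, l)).symm
    rw [e1, ← Metric.infDist_image (eK H L D).isometry (x := dl ((1 : H), ((d, l) : D × L)))
      (t := (P' : Set (EE H (D × L))))]
    have h3 : Metric.infDist (eK H L D (dl ((1 : H), ((d, l) : D × L)))) (R' : Set (EE G L))
        ≤ Metric.infDist (eK H L D (dl ((1 : H), ((d, l) : D × L))))
          (eK H L D '' (P' : Set (EE H (D × L)))) :=
      Metric.infDist_le_infDist_of_subset hsub (Set.Nonempty.image _ ⟨0, P'.zero_mem⟩)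
    have h5 := pow_le_pow_left₀ Metric.infDist_nonneg h3 2
    linarith
  rw [Fintype.sum_prod_type]
  calc ∑ d : D, ∑ l : L,
        (1 - Metric.infDist (dl ((1 : H), ((d, l) : D × L))) (P' : Set (EE H (D × L))) ^ 2)
      ≤ ∑ _d : D, ∑ l : L, (1 - Metric.infDist (dl ((1 : G), l)) (R' : Set (EE G L)) ^ 2) :=
        Finset.sum_le_sum fun d _ => Finset.sum_le_sum fun l _ => key d l
    _ = _ := by
      rw [Finset.sum_const, Finset.card_univ, Fintype.card_coe, nsmul_eq_mul]

/-- the part of the kernel supported on the cosets in `C` -/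
def skerK (C : Finset (G ⧸ H)) : Set (EE G K) :=
  {f | T f = 0 ∧ ∀ y : G × K, f y ≠ 0 → (y.1 : G ⧸ H) ∈ C}

theorem image_kerK (C D : Finset (G ⧸ H)) (hD : Prp H T C D) :
    eK H K C '' (LinearMap.ker (TK H T C D : EE H (C × K) →ₗ[ℂ] EE H (D × L)) :
      Set (EE H (C × K))) = skerK H T C := by
  ext f
  constructor
  · rintro ⟨F, hF, rfl⟩
    have hF' : TK H T C D F = 0 := hF
    refine ⟨?_, supp_eK H C F⟩
    rw [← eK_TK H T C D hD, hF', map_zero]
  · rintro ⟨h1, h2⟩
    refine ⟨rK H K C f, ?_, ?_⟩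
    · change TK H T C D (rK H K C f) = 0
      rw [TK_apply, ext_res, h1, map_zero]
      intro y hy
      rw [mem_range_cmapK]; exact h2 y hy
    · apply ext_res
      intro y hy
      rw [mem_range_cmapK]; exact h2 y hy

/-- the dimension, relative to `H`, of the part of the kernel supported on the cosets in `C` -/
noncomputable def rdK (C : Finset (G ⧸ H)) : ℝ :=
  ∑ c ∈ C, ∑ k : K, (1 - Metric.infDist (dl ((c.out, k) : G × K)) (skerK H T C) ^ 2)

theorem rdK_eq (C D : Finset (G ⧸ H)) (hD : Prp H T C D) :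
    vd (LinearMap.ker (TK H T C D : EE H (C × K) →ₗ[ℂ] EE H (D × L))) = rdK H T C := by
  rw [vd_eq_infDist _ (ContinuousLinearMap.isClosed_ker (TK H T C D))]
  unfold rdK
  rw [← Finset.sum_coe_sort C
    (fun c => ∑ k : K, (1 - Metric.infDist (dl ((c.out, k) : G × K)) (skerK H T C) ^ 2)),
    Fintype.sum_prod_type]
  refine Finset.sum_congr rfl fun c _ => Finset.sum_congr rfl fun k _ => ?_
  have e1 : (dl (((c : G ⧸ H).out, k) : G × K) : EE G K)
      = eK H K C (dl ((1 : H), ((c, k) : C × K))) := (eK_dl H C (c, k)).symm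
  rw [← image_kerK H T C D hD, e1, Metric.infDist_image (eK H K C).isometry]

theorem zero_mem_skerK (C : Finset (G ⧸ H)) : (0 : EE G K) ∈ skerK H T C := by
  refine ⟨map_zero _, ?_⟩
  intro y hy
  exact absurd rfl hy

theorem rdK_le (hT : Eqv T) (C : Finset (G ⧸ H)) :
    rdK H T C ≤ vd (LinearMap.ker (T : EE G K →ₗ[ℂ] EE G L)) * C.card := by
  rw [vd_eq_infDist _ (ContinuousLinearMap.isClosed_ker T)]
  have key : ∀ c ∈ C, ∑ k : K, (1 - Metric.infDist (dl ((c.out, k) : G × K)) (skerK H T C) ^ 2)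
      ≤ ∑ k : K, (1 - Metric.infDist (dl (((1 : G), k) : G × K))
        ((LinearMap.ker (T : EE G K →ₗ[ℂ] EE G L)) : Set (EE G K)) ^ 2) := by
    intro c _
    refine Finset.sum_le_sum fun k _ => ?_
    rw [← infDist_dlK _ (inv_ker T hT) c.out]
    have h3 : Metric.infDist (dl ((c.out, k) : G × K))
        ((LinearMap.ker (T : EE G K →ₗ[ℂ] EE G L)) : Set (EE G K))
        ≤ Metric.infDist (dl ((c.out, k) : G × K)) (skerK H T C) :=
      Metric.infDist_le_infDist_of_subset (fun f hf => hf.1) ⟨0, zero_mem_skerK H T C⟩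
    have h5 := pow_le_pow_left₀ Metric.infDist_nonneg h3 2
    linarith
  refine (Finset.sum_le_sum key).trans (le_of_eq ?_)
  rw [Finset.sum_const, nsmul_eq_mul, mul_comm]

/-- the window inequality -/
theorem windowK (hT : Eqv T) (C D : Finset (G ⧸ H)) (hD : Prp H T C D) :
    (Fintype.card K : ℝ) * C.card
      - ((Fintype.card K : ℝ) - vd (LinearMap.ker (T : EE G K →ₗ[ℂ] EE G L))) * D.card
      ≤ rdK H T C := by
  have h1 := ker_add_range (TK H T C D) (TK_eqv H T hT C D)
  rw [rdK_eq H T C D hD, Fintype.card_prod, Fintype.card_coe] at h1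
  have h2 := vd_rangeK_le H T hT C D hD
  have h3 := ker_add_range T hT
  push_cast at h1
  have h4 : vd (LinearMap.range (T : EE G K →ₗ[ℂ] EE G L))
      = (Fintype.card K : ℝ) - vd (LinearMap.ker (T : EE G K →ₗ[ℂ] EE G L)) := by linarith
  rw [h4] at h2
  nlinarith

/-- the distance of a basis vector to a set of functions vanishing there -/
theorem infDist_eq_one (x : G × K) (S : Set (EE G K)) (h0 : (0 : EE G K) ∈ S)
    (hS : ∀ f ∈ S, f x = 0) : Metric.infDist (dl x) S = 1 := by
  apply le_antisymm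
  · refine (Metric.infDist_le_dist_of_mem h0).trans (le_of_eq ?_)
    rw [dist_zero_right, norm_dl]
  · rw [Metric.le_infDist ⟨0, h0⟩]
    intro f hf
    have e1 : ⟪(dl x : EE G K), dl x - f⟫_ℂ = 1 := by
      rw [inner_dl_left]
      change (dl x : EE G K) x - f x = 1
      rw [dl_apply_self, hS f hf, sub_zero]
    have e2 := norm_inner_le_norm (𝕜 := ℂ) (dl x : EE G K) (dl x - f)
    rw [e1, norm_dl, one_mul, norm_one] at e2
    rw [dist_eq_norm]
    exact e2

/-- the coordinate at one coset -/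
noncomputable abbrev cd (K : Type v) (W : Finset (G ⧸ H)) (w : W) : EE H (W × K) →L[ℂ] EE H K :=
  coord w

/-- the increment of the dimension -/
theorem increment (hT : Eqv T) (c : G ⧸ H) (C : Finset (G ⧸ H)) (hc : c ∉ C)
    (D : Finset (G ⧸ H)) (hD : Prp H T (Finset.cons c C hc) D) :
    rdK H T (Finset.cons c C hc) - rdK H T C
      = vd ((LinearMap.ker (TK H T (Finset.cons c C hc) D :
        EE H (↥(Finset.cons c C hc) × K) →ₗ[ℂ] EE H (D × L))).map
        (cd H K (Finset.cons c C hc) ⟨c, Finset.mem_cons_self c C⟩ :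
          EE H (↥(Finset.cons c C hc) × K) →ₗ[ℂ] EE H K)) := by
  classical
  set W := Finset.cons c C hc with hW
  set cW : W := ⟨c, Finset.mem_cons_self c C⟩ with hcW
  set U := LinearMap.ker (TK H T W D : EE H (W × K) →ₗ[ℂ] EE H (D × L)) with hU
  have hUinv : Pool.Agent.W649.ZL.Inv U := inv_ker _ (TK_eqv H T hT W D)
  have hUcl : IsClosed (U : Set (EE H (W × K))) := ContinuousLinearMap.isClosed_ker _
  have hco : Eqv (cd H K W cW) := fun k f => coord_tr cW k f
  have h1 := rank_nullity (cd H K W cW) hco hUinv hUcl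
  rw [rdK_eq H T W D hD] at h1
  have hVcl : IsClosed ((U ⊓ LinearMap.ker (cd H K W cW : EE H (W × K) →ₗ[ℂ] EE H K) :
      Submodule ℂ (EE H (W × K))) : Set (EE H (W × K))) := by
    rw [Submodule.coe_inf]
    exact hUcl.inter (ContinuousLinearMap.isClosed_ker _)
  -- the part vanishing on `c`
  have himg : eK H K W '' ((U ⊓ LinearMap.ker (cd H K W cW : EE H (W × K) →ₗ[ℂ] EE H K) :
      Submodule ℂ (EE H (W × K))) : Set (EE H (W × K))) = skerK H T C := by
    ext f
    constructor
    · rintro ⟨F, ⟨hF1, hF2⟩, rfl⟩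
      have hF1' : eK H K W F ∈ skerK H T W := by
        rw [← image_kerK H T W D hD]
        exact ⟨F, hF1, rfl⟩
      refine ⟨hF1'.1, ?_⟩
      intro y hy
      have h3 := hF1'.2 y hy
      rw [hW, Finset.mem_cons] at h3
      rcases h3 with h3 | h3
      · exfalso
        have h4 : y ∈ Set.range (cmapK H K W) := by
          rw [mem_range_cmapK, h3]; exact Finset.mem_cons_self c C
        obtain ⟨⟨n, w, k⟩, rfl⟩ := h4
        rw [mk_cmapK] at h3
        have hw : w = cW := Subtype.ext h3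
        subst hw
        apply hy
        rw [extL_apply]
        have h5 : coord cW F = 0 := hF2
        have h6 := congrArg (fun X : EE H K => X (n, k)) h5
        exact h6
      · exact h3
    · intro hf
      have hfW : f ∈ skerK H T W := ⟨hf.1, fun y hy => Finset.mem_cons_of_mem (hf.2 y hy)⟩
      rw [← image_kerK H T W D hD] at hfW
      obtain ⟨F, hF, rfl⟩ := hfW
      refine ⟨F, ⟨hF, ?_⟩, rfl⟩
      change coord cW F = 0
      ext ⟨n, k⟩
      rw [coord_apply]
      change F (n, (cW, k)) = 0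
      by_contra hne
      have h7 : eK H K W F (cmapK H K W (n, (cW, k))) ≠ 0 := by
        rw [extL_apply]; exact hne
      have h8 := hf.2 _ h7
      rw [mk_cmapK] at h8
      exact hc h8
  have h2 : vd (U ⊓ LinearMap.ker (cd H K W cW : EE H (W × K) →ₗ[ℂ] EE H K)) = rdK H T C := by
    rw [vd_eq_infDist _ hVcl, Fintype.sum_prod_type]
    have e1 : ∀ w : W, ∑ k : K, (1 - Metric.infDist (dl ((1 : H), ((w, k) : W × K)))
        ((U ⊓ LinearMap.ker (cd H K W cW : EE H (W × K) →ₗ[ℂ] EE H K) :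
          Submodule ℂ (EE H (W × K))) : Set (EE H (W × K))) ^ 2)
        = ∑ k : K, (1 - Metric.infDist (dl (((w : G ⧸ H).out, k) : G × K)) (skerK H T C) ^ 2) := by
      intro w
      refine Finset.sum_congr rfl fun k _ => ?_
      have e1 : (dl (((w : G ⧸ H).out, k) : G × K) : EE G K)
          = eK H K W (dl ((1 : H), ((w, k) : W × K))) := (eK_dl H W (w, k)).symm
      rw [← himg, e1, Metric.infDist_image (eK H K W).isometry]
    rw [Finset.sum_congr rfl fun w _ => e1 w,
      Finset.sum_coe_sort W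
        (fun c => ∑ k : K, (1 - Metric.infDist (dl ((c.out, k) : G × K)) (skerK H T C) ^ 2)),
      hW, Finset.sum_cons]
    unfold rdK
    rw [add_eq_right]
    refine Finset.sum_eq_zero fun k _ => ?_
    rw [infDist_eq_one _ _ (zero_mem_skerK H T C)]
    · norm_num
    · intro f hf
      by_contra hne
      have h9 := hf.2 _ hne
      rw [QuotientGroup.out_eq'] at h9
      exact hc h9
  rw [h2] at h1
  linarith

theorem increment_mono (hT : Eqv T) (c : G ⧸ H) (C C' : Finset (G ⧸ H)) (hc : c ∉ C)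
    (hc' : c ∉ C') (hCC : C ⊆ C') (D D' : Finset (G ⧸ H)) (hD : Prp H T (Finset.cons c C hc) D)
    (hD' : Prp H T (Finset.cons c C' hc') D') :
    rdK H T (Finset.cons c C hc) - rdK H T C
      ≤ rdK H T (Finset.cons c C' hc') - rdK H T C' := by
  rw [increment H T hT c C hc D hD, increment H T hT c C' hc' D' hD']
  apply vd_mono
  rintro _ ⟨F, hF, rfl⟩
  have h1 : eK H K (Finset.cons c C hc) F ∈ skerK H T (Finset.cons c C hc) := by
    rw [← image_kerK H T (Finset.cons c C hc) D hD]; exact ⟨F, hF, rfl⟩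
  have h2 : eK H K (Finset.cons c C hc) F ∈ skerK H T (Finset.cons c C' hc') := by
    refine ⟨h1.1, fun y hy => ?_⟩
    have h3 := h1.2 y hy
    rw [Finset.mem_cons] at h3
    rw [Finset.mem_cons]
    exact h3.imp id (fun h => hCC h)
  rw [← image_kerK H T (Finset.cons c C' hc') D' hD'] at h2
  obtain ⟨F', hF', he⟩ := h2
  refine ⟨F', hF', ?_⟩
  ext ⟨n, k⟩
  have h4 : eK H K (Finset.cons c C' hc') F' (c.out * (n : G), k) = eK H K (Finset.cons c C hc) F (c.out * (n : G), k) := by rw [he]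
  have h5 : eK H K (Finset.cons c C' hc') F' (c.out * (n : G), k) = F' (n, (⟨c, Finset.mem_cons_self c C'⟩, k)) :=
    extL_apply (cmapK H K (Finset.cons c C' hc')) (cmapK_inj H (Finset.cons c C' hc')) F' (n, (⟨c, Finset.mem_cons_self c C'⟩, k))
  have h6 : eK H K (Finset.cons c C hc) F (c.out * (n : G), k) = F (n, (⟨c, Finset.mem_cons_self c C⟩, k)) :=
    extL_apply (cmapK H K (Finset.cons c C hc)) (cmapK_inj H (Finset.cons c C hc)) F (n, (⟨c, Finset.mem_cons_self c C⟩, k))
  rw [h5, h6] at h4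
  exact h4

theorem increment_le (hT : Eqv T) (c : G ⧸ H) (C : Finset (G ⧸ H)) (hc : c ∉ C)
    (D : Finset (G ⧸ H)) (hD : Prp H T (Finset.cons c C hc) D) :
    rdK H T (Finset.cons c C hc) - rdK H T C ≤ Fintype.card K := by
  rw [increment H T hT c C hc D hD]
  exact (vd_mono le_top).trans (le_of_eq vd_top)

end cosets

end Pool.Agent.Helper175_AZ
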