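import Pool.Agent.Helper175_AZ.Ext

set_option autoImplicit false
set_option linter.unusedSectionVars false
set_option linter.unusedSimpArgs false

open scoped InnerProductSpace InnerProduct ENNReal

/-! The window inequality: the dimension of the kernel of an element of the group algebra and the
part of the kernel supported on finitely many cosets of a subgroup. -/

namespace Pool.Agent.Helper175_AZ

open Pool.Agent.W649.ZL

universe u v w

section
variable {G : Type u} [Group G] (H : Subgroup G) (α : G →₀ ℂ)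

/-- left convolution by `α`, from the cosets in `C` to those in `D` -/
noncomputable def TT (C D : Finset (G ⧸ H)) : EE H C →L[ℂ] EE H D :=
  (rC H D).comp ((cop α).comp (eC H C).toContinuousLinearMap)

theorem TT_apply (C D : Finset (G ⧸ H)) (F : EE H C) :
    TT H α C D F = rC H D (cop α (eC H C F)) := rfl

theorem TT_eqv (C D : Finset (G ⧸ H)) : Eqv (TT H α C D) := by
  intro k F
  rw [TT_apply, TT_apply, eC_tr, cop_eqv, rC_tr]

theorem supp_cop (C D : Finset (G ⧸ H)) (hD : ∀ k ∈ α.support, ∀ c ∈ C, k • c ∈ D)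
    (f : EE G Unit) (hf : ∀ y : G × Unit, f y ≠ 0 → (y.1 : G ⧸ H) ∈ C) (y : G × Unit)
    (hy : cop α f y ≠ 0) : (y.1 : G ⧸ H) ∈ D := by
  obtain ⟨x, ⟨⟩⟩ := y
  rw [cop_apply] at hy
  obtain ⟨k, hk, hne⟩ := Finset.exists_ne_zero_of_sum_ne_zero hy
  have h1 := hf (k⁻¹ * x, ()) (right_ne_zero_of_mul hne)
  have h2 := hD k hk _ h1
  have h3 : k • (((k⁻¹ * x : G)) : G ⧸ H) = (x : G ⧸ H) := by
    change ((k * (k⁻¹ * x) : G) : G ⧸ H) = (x : G ⧸ H)
    rw [mul_inv_cancel_left]
  rwa [h3] at h2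

theorem eC_TT (C D : Finset (G ⧸ H)) (hD : ∀ k ∈ α.support, ∀ c ∈ C, k • c ∈ D) (F : EE H C) :
    eC H D (TT H α C D F) = cop α (eC H C F) := by
  rw [TT_apply, ext_res]
  intro y hy
  rw [mem_range_cmap]
  exact supp_cop H α C D hD _ (supp_eC H C F) y hy

theorem isometry_tr (k : G) : Isometry (tr k : EE G Unit → EE G Unit) := by
  apply Isometry.of_dist_eq
  intro f g
  have e : tr k f - tr k g = tr k (f - g) := by ext x; rfl
  rw [dist_eq_norm, dist_eq_norm, e, norm_tr]

theorem infDist_dl (P : Submodule ℂ (EE G Unit)) (hP : Pool.Agent.W649.ZL.Inv P) (g : G) :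
    Metric.infDist (dl ((g, ()) : G × Unit)) (P : Set (EE G Unit))
      = Metric.infDist (dl (((1 : G), ()) : G × Unit)) (P : Set (EE G Unit)) := by
  have h1 : tr g '' (P : Set (EE G Unit)) = (P : Set (EE G Unit)) := by
    apply Set.Subset.antisymm
    · rintro _ ⟨f, hf, rfl⟩
      exact hP g f hf
    · intro f hf
      refine ⟨tr g⁻¹ f, hP _ _ hf, ?_⟩
      rw [tr_tr, mul_inv_cancel, tr_one]
  have h2 := Metric.infDist_image (isometry_tr g) (x := dl ((g, ()) : G × Unit))
    (t := (P : Set (EE G Unit)))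
  rw [h1, tr_dl, mul_inv_cancel] at h2
  exact h2.symm

theorem inv_range {I : Type v} {J : Type w} {K : Type u} [Group K] (T : EE K I →L[ℂ] EE K J)
    (hT : Eqv T) : Pool.Agent.W649.ZL.Inv (LinearMap.range (T : EE K I →ₗ[ℂ] EE K J)) := by
  rintro k _ ⟨f, rfl⟩
  exact ⟨tr k f, hT k f⟩

/-- the dimension of the kernel -/
noncomputable def kd : ℝ := vd (LinearMap.ker (cop α : EE G Unit →ₗ[ℂ] EE G Unit))

theorem one_sub_kd : 1 - kd α
    = 1 - Metric.infDist (dl (((1 : G), ()) : G × Unit))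
      ((LinearMap.range (cop α : EE G Unit →ₗ[ℂ] EE G Unit)).topologicalClosure :
        Set (EE G Unit)) ^ 2 := by
  have h1 := ker_add_range (cop α) (cop_eqv α)
  have h2 := vd_eq_infDist ((LinearMap.range
    (cop α : EE G Unit →ₗ[ℂ] EE G Unit)).topologicalClosure)
    (Submodule.isClosed_topologicalClosure _)
  rw [vd_closure] at h2
  simp only [Finset.univ_unique, PUnit.default_eq_unit, Finset.sum_singleton] at h2
  rw [← h2]
  simp only [Fintype.card_unit, Nat.cast_one] at h1
  unfold kd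
  linarith

theorem kd_eq : kd α = 1 - Metric.infDist (dl (((1 : G), ()) : G × Unit))
      ((LinearMap.ker (cop α : EE G Unit →ₗ[ℂ] EE G Unit)) : Set (EE G Unit)) ^ 2 := by
  have h2 := vd_eq_infDist (LinearMap.ker (cop α : EE G Unit →ₗ[ℂ] EE G Unit))
    (ContinuousLinearMap.isClosed_ker (cop α))
  simp only [Finset.univ_unique, PUnit.default_eq_unit, Finset.sum_singleton] at h2
  exact h2

theorem vd_range_le (C D : Finset (G ⧸ H)) (hD : ∀ k ∈ α.support, ∀ c ∈ C, k • c ∈ D) :
    vd (LinearMap.range (TT H α C D : EE H C →ₗ[ℂ] EE H D)) ≤ (1 - kd α) * D.card := by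
  classical
  rw [← vd_closure, vd_eq_infDist _ (Submodule.isClosed_topologicalClosure _)]
  set P' := (LinearMap.range (TT H α C D : EE H C →ₗ[ℂ] EE H D)).topologicalClosure with hP'
  set R' := (LinearMap.range (cop α : EE G Unit →ₗ[ℂ] EE G Unit)).topologicalClosure with hR'
  have hsub : eC H D '' (P' : Set (EE H D)) ⊆ (R' : Set (EE G Unit)) := by
    rw [hP', hR', Submodule.topologicalClosure_coe, Submodule.topologicalClosure_coe]
    refine (image_closure_subset_closure_image (eC H D).continuous).trans (closure_mono ?_)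
    rintro _ ⟨_, ⟨F, rfl⟩, rfl⟩
    exact ⟨eC H C F, (eC_TT H α C D hD F).symm⟩
  have key : ∀ d : D, 1 - Metric.infDist (dl ((1 : H), d)) (P' : Set (EE H D)) ^ 2 ≤ 1 - kd α := by
    intro d
    rw [one_sub_kd, ← infDist_dl R' ((inv_range (cop α) (cop_eqv α)).topologicalClosure)
      ((d : G ⧸ H).out), ← eC_dl,
      ← Metric.infDist_image (eC H D).isometry (x := dl ((1 : H), d)) (t := (P' : Set (EE H D)))]
    have h3 : Metric.infDist (eC H D (dl ((1 : H), d))) (R' : Set (EE G Unit))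
        ≤ Metric.infDist (eC H D (dl ((1 : H), d))) (eC H D '' (P' : Set (EE H D))) :=
      Metric.infDist_le_infDist_of_subset hsub (by
        refine Set.Nonempty.image _ ⟨0, P'.zero_mem⟩)
    have h4 : 0 ≤ Metric.infDist (eC H D (dl ((1 : H), d))) (R' : Set (EE G Unit)) :=
      Metric.infDist_nonneg
    have h5 := pow_le_pow_left₀ h4 h3 2
    linarith
  calc ∑ d : D, (1 - Metric.infDist (dl ((1 : H), d)) (P' : Set (EE H D)) ^ 2)
      ≤ ∑ _d : D, (1 - kd α) := Finset.sum_le_sum fun d _ => key d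
    _ = (1 - kd α) * D.card := by
      rw [Finset.sum_const, Finset.card_univ, Fintype.card_coe, nsmul_eq_mul, mul_comm]

/-- the part of the kernel supported on the cosets in `C` -/
def sker (C : Finset (G ⧸ H)) : Set (EE G Unit) :=
  {f | cop α f = 0 ∧ ∀ y : G × Unit, f y ≠ 0 → (y.1 : G ⧸ H) ∈ C}

theorem image_ker (C D : Finset (G ⧸ H)) (hD : ∀ k ∈ α.support, ∀ c ∈ C, k • c ∈ D) :
    eC H C '' (LinearMap.ker (TT H α C D : EE H C →ₗ[ℂ] EE H D) : Set (EE H C)) = sker H α C := by
  ext f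
  constructor
  · rintro ⟨F, hF, rfl⟩
    have hF' : TT H α C D F = 0 := hF
    refine ⟨?_, supp_eC H C F⟩
    rw [← eC_TT H α C D hD, hF', map_zero]
  · rintro ⟨h1, h2⟩
    refine ⟨rC H C f, ?_, ?_⟩
    · change TT H α C D (rC H C f) = 0
      rw [TT_apply, ext_res, h1, map_zero]
      intro y hy
      rw [mem_range_cmap]; exact h2 y hy
    · apply ext_res
      intro y hy
      rw [mem_range_cmap]; exact h2 y hy

/-- the dimension, relative to `H`, of the part of the kernel supported on the cosets in `C` -/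
noncomputable def rd (C : Finset (G ⧸ H)) : ℝ :=
  ∑ c ∈ C, (1 - Metric.infDist (dl ((c.out, ()) : G × Unit)) (sker H α C) ^ 2)

theorem rd_eq (C D : Finset (G ⧸ H)) (hD : ∀ k ∈ α.support, ∀ c ∈ C, k • c ∈ D) :
    vd (LinearMap.ker (TT H α C D : EE H C →ₗ[ℂ] EE H D)) = rd H α C := by
  rw [vd_eq_infDist _ (ContinuousLinearMap.isClosed_ker (TT H α C D))]
  unfold rd
  rw [← Finset.sum_coe_sort C
    (fun c => (1 - Metric.infDist (dl ((c.out, ()) : G × Unit)) (sker H α C) ^ 2))]
  refine Finset.sum_congr rfl fun c _ => ?_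
  rw [← image_ker H α C D hD, ← eC_dl, Metric.infDist_image (eC H C).isometry]

theorem zero_mem_sker (C : Finset (G ⧸ H)) : (0 : EE G Unit) ∈ sker H α C := by
  refine ⟨map_zero _, ?_⟩
  intro y hy
  exact absurd rfl hy

theorem rd_le (C : Finset (G ⧸ H)) : rd H α C ≤ kd α * C.card := by
  have key : ∀ c ∈ C, 1 - Metric.infDist (dl ((c.out, ()) : G × Unit)) (sker H α C) ^ 2
      ≤ kd α := by
    intro c _
    rw [kd_eq, ← infDist_dl _ (inv_ker (cop α) (cop_eqv α)) c.out]
    have h3 : Metric.infDist (dl ((c.out, ()) : G × Unit))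
        ((LinearMap.ker (cop α : EE G Unit →ₗ[ℂ] EE G Unit)) : Set (EE G Unit))
        ≤ Metric.infDist (dl ((c.out, ()) : G × Unit)) (sker H α C) :=
      Metric.infDist_le_infDist_of_subset (fun f hf => hf.1) ⟨0, zero_mem_sker H α C⟩
    have h5 := pow_le_pow_left₀ Metric.infDist_nonneg h3 2
    linarith
  calc rd H α C ≤ ∑ _c ∈ C, kd α := Finset.sum_le_sum key
    _ = kd α * C.card := by rw [Finset.sum_const, nsmul_eq_mul, mul_comm]

/-- the window inequality -/
theorem window (C D : Finset (G ⧸ H)) (hD : ∀ k ∈ α.support, ∀ c ∈ C, k • c ∈ D) :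
    (C.card : ℝ) - (1 - kd α) * D.card ≤ rd H α C := by
  have h1 := ker_add_range (TT H α C D) (TT_eqv H α C D)
  rw [rd_eq H α C D hD, Fintype.card_coe] at h1
  have h2 := vd_range_le H α C D hD
  linarith

theorem rd_eq_zero (C : Finset (G ⧸ H)) (h : ∀ f ∈ sker H α C, f = 0) : rd H α C = 0 := by
  have h1 : sker H α C = {0} := by
    ext f
    exact ⟨fun hf => h f hf, fun hf => by rw [Set.mem_singleton_iff] at hf; rw [hf]; exact zero_mem_sker H α C⟩
  unfold rd
  refine Finset.sum_eq_zero fun c _ => ?_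
  rw [h1, Metric.infDist_singleton, dist_zero_right, norm_dl]
  norm_num

theorem kd_le_one : kd α ≤ 1 := by
  rw [kd_eq]
  have := sq_nonneg (Metric.infDist (dl (((1 : G), ()) : G × Unit))
      ((LinearMap.ker (cop α : EE G Unit →ₗ[ℂ] EE G Unit)) : Set (EE G Unit)))
  linarith

theorem kd_nonneg : 0 ≤ kd α := vd_nonneg _

end

end Pool.Agent.Helper175_AZ
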